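import Pool.Agent.H41.Rand.Prob

/-! # Almost sure convergence of the exponential sums -/

set_option autoImplicit false

open Finset Filter Topology MeasureTheory ProbabilityTheory

namespace H41.Rand

open H41.SW

variable {Ω : Type*} [MeasurableSpace Ω] (μ : Measure Ω) [IsProbabilityMeasure μ]
  (ξ : ℕ → Ω → ℕ)

/-- the random number -/
noncomputable def XX (f : ℕ → ℕ → ℝ) (x : ℝ) (ω : Ω) : ℝ := x + ∑' k, f k (ξ k ω)

lemma summ (f : ℕ → ℕ → ℝ) (g : ℕ → ℝ) (hg : Summable g) (hfg : ∀ k v, |f k v| ≤ g k) (ω : Ω) :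
    Summable fun k => f k (ξ k ω) :=
  Summable.of_norm_bounded hg fun k => by rw [Real.norm_eq_abs]; exact hfg k _

lemma tend (f : ℕ → ℕ → ℝ) (g : ℕ → ℝ) (hg : Summable g) (hfg : ∀ k v, |f k v| ≤ g k) (x : ℝ)
    (K : Finset ℕ) (ω : Ω) :
    Tendsto (fun L : ℕ => val f K (conf ξ K ω) + (x + val f (range L \ K) (conf ξ (range L \ K) ω)))
      atTop (𝓝 (XX ξ f x ω)) := by
  have h1 := (summ ξ f g hg hfg ω).hasSum.tendsto_sum_nat
  have h2 : ∀ᶠ L : ℕ in atTop, x + ∑ k ∈ range L, f k (ξ k ω) =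
      val f K (conf ξ K ω) + (x + val f (range L \ K) (conf ξ (range L \ K) ω)) := by
    obtain ⟨L0, hL0⟩ := K.exists_nat_subset_range
    filter_upwards [eventually_ge_atTop L0] with L hL
    have h3 : K ⊆ range L := hL0.trans (range_subset_range.2 hL)
    have h4 : ∀ K : Finset ℕ, val f K (conf ξ K ω) = ∑ k ∈ K, f k (ξ k ω) := fun K =>
      sum_coe_sort K (fun k => f k (ξ k ω))
    rw [h4, h4, ← sum_sdiff h3]
    ring
  exact (h1.const_add x).congr' h2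

lemma meas_XX (hm : ∀ k, Measurable (ξ k)) (f : ℕ → ℕ → ℝ) (g : ℕ → ℝ) (hg : Summable g)
    (hfg : ∀ k v, |f k v| ≤ g k) (x : ℝ) : Measurable (XX ξ f x) := by
  refine measurable_of_tendsto_metrizable (f := fun (L : ℕ) ω => x + ∑ k ∈ range L, f k (ξ k ω))
    (fun L => ?_) ?_
  · exact (Finset.measurable_fun_sum _ fun k _ => (measurable_of_countable (f k)).comp (hm k)).const_add x
  · rw [tendsto_pi_nhds]
    intro ω
    exact ((summ ξ f g hg hfg ω).hasSum.tendsto_sum_nat).const_add x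

theorem moment (hm : ∀ k, Measurable (ξ k)) (hind : iIndepFun ξ μ)
    (f : ℕ → ℕ → ℝ) (g : ℕ → ℝ) (hg : Summable g) (hfg : ∀ k v, |f k v| ≤ g k) (x : ℝ)
    (K : Finset ℕ) (Φ : Finset (K → ℕ))
    (b : ℕ) (h : ℤ) (M : ℕ) (q η : ℝ) (hq0 : 0 ≤ q) (hη0 : 0 ≤ η)
    (hq : ∀ φ ∈ Φ, μ.real {ω | conf ξ K ω = φ} ≤ q)
    (hη : ∀ φ ∈ Φ, ∀ φ' ∈ Φ, φ ≠ φ' → ‖S b h M (val f K φ - val f K φ')‖ ≤ η) :
    ∫⁻ ω, Set.indicator {ω | conf ξ K ω ∈ Φ} (fun ω => ENNReal.ofReal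
      (‖S b h M (XX ξ f x ω)‖ ^ 2)) ω ∂μ ≤ ENNReal.ofReal ((q * M + η) * M) := by
  obtain ⟨F, hF⟩ : ∃ F : ℕ → Ω → ENNReal, F = fun L ω => Set.indicator {ω | conf ξ K ω ∈ Φ}
    (fun ω => ENNReal.ofReal (‖S b h M (val f K (conf ξ K ω) +
      (x + val f (range L \ K) (conf ξ (range L \ K) ω)))‖ ^ 2)) ω := ⟨_, rfl⟩
  have hmc : ∀ L : Finset ℕ, Measurable (conf ξ L) := fun L => by
    unfold conf
    exact measurable_pi_lambda _ fun k => hm k
  have hmF : ∀ L, Measurable (F L) := by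
    intro L
    rw [hF]
    refine Measurable.indicator ?_ (hmc K (Finset.measurableSet Φ))
    exact (measurable_S b h M).comp
      (Measurable.add (f := fun ω => val f K (conf ξ K ω))
        (g := fun ω => x + val f (range L \ K) (conf ξ (range L \ K) ω))
        ((measurable_of_countable (val f K)).comp (hmc K))
        (((measurable_of_countable (val f (range L \ K))).comp (hmc _)).const_add x))
  have h1 : ∀ ω, Set.indicator {ω | conf ξ K ω ∈ Φ} (fun ω => ENNReal.ofReal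
      (‖S b h M (XX ξ f x ω)‖ ^ 2)) ω = liminf (fun L => F L ω) atTop := by
    intro ω
    refine (Tendsto.liminf_eq ?_).symm
    rw [hF]
    by_cases hω : conf ξ K ω ∈ Φ
    · have e1 : ∀ G : Ω → ENNReal, Set.indicator {ω | conf ξ K ω ∈ Φ} G ω = G ω :=
        fun G => Set.indicator_of_mem (by exact hω) _
      simp_rw [e1]
      have h2 := continuous_S b h M
      exact ((ENNReal.continuous_ofReal.comp (by fun_prop :
        Continuous fun y => ‖S b h M y‖ ^ 2)).tendsto _).comp (tend ξ f g hg hfg x K ω)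
    · have e1 : ∀ G : Ω → ENNReal, Set.indicator {ω | conf ξ K ω ∈ Φ} G ω = 0 :=
        fun G => Set.indicator_of_notMem (by exact hω) _
      simp_rw [e1]
      exact tendsto_const_nhds
  simp_rw [h1]
  refine (lintegral_liminf_le hmF).trans ?_
  refine liminf_le_of_frequently_le' (Frequently.of_forall fun L => ?_)
  rw [hF]
  exact second_moment μ ξ hm hind K (range L \ K) (disjoint_sdiff) Φ f b h M q η hq0 hη0 hq hη x

theorem ae_zero (hm : ∀ k, Measurable (ξ k)) (hind : iIndepFun ξ μ)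
    (f : ℕ → ℕ → ℝ) (g : ℕ → ℝ) (hg : Summable g) (hfg : ∀ k v, |f k v| ≤ g k) (x : ℝ)
    (b : ℕ) (h : ℤ) (K : ℕ → Finset ℕ) (Φ : (M : ℕ) → Finset (K M → ℕ)) (q η : ℕ → ℝ)
    (hq0 : ∀ M, 0 ≤ q M) (hη0 : ∀ M, 0 ≤ η M)
    (hq : ∀ M, ∀ φ ∈ Φ M, μ.real {ω | conf ξ (K M) ω = φ} ≤ q M)
    (hη : ∀ M, ∀ φ ∈ Φ M, ∀ φ' ∈ Φ M, φ ≠ φ' →
      ‖S b h M (val f (K M) φ - val f (K M) φ')‖ ≤ η M)
    (hsum : Summable fun M : ℕ => (q M * M + η M) * M / (M : ℝ) ^ 3)
    (hev : ∀ᵐ ω ∂μ, ∀ᶠ M in atTop, conf ξ (K M) ω ∈ Φ M) :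
    ∀ᵐ ω ∂μ, Tendsto (avg (ex b (XX ξ f x ω) h)) atTop (𝓝 0) := by
  obtain ⟨F, hF⟩ : ∃ F : ℕ → Ω → ENNReal, F = fun M ω => Set.indicator {ω | conf ξ (K M) ω ∈ Φ M}
    (fun ω => ENNReal.ofReal (‖S b h M (XX ξ f x ω)‖ ^ 2)) ω * ENNReal.ofReal (1 / (M : ℝ) ^ 3) :=
      ⟨_, rfl⟩
  have hmc : ∀ L : Finset ℕ, Measurable (conf ξ L) := fun L => by
    unfold conf
    exact measurable_pi_lambda _ fun k => hm k
  have hmX := meas_XX ξ hm f g hg hfg x
  have hmF0 : ∀ M, Measurable fun ω => Set.indicator {ω | conf ξ (K M) ω ∈ Φ M}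
    (fun ω => ENNReal.ofReal (‖S b h M (XX ξ f x ω)‖ ^ 2)) ω := fun M =>
      Measurable.indicator ((measurable_S b h M).comp hmX) (hmc (K M) (Finset.measurableSet (Φ M)))
  have hmF : ∀ M, Measurable (F M) := by
    intro M
    rw [hF]
    exact (hmF0 M).mul_const _
  have hint : ∫⁻ ω, ∑' M, F M ω ∂μ ≤ ∑' M : ℕ, ENNReal.ofReal ((q M * M + η M) * M / (M : ℝ) ^ 3) := by
    rw [lintegral_tsum fun M => (hmF M).aemeasurable]
    refine ENNReal.tsum_le_tsum fun M => ?_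
    rw [hF]
    simp only
    rw [lintegral_mul_const _ (hmF0 M)]
    refine (mul_le_mul_left (moment μ ξ hm hind f g hg hfg x (K M) (Φ M) b h M (q M) (η M) (hq0 M)
      (hη0 M) (hq M) (hη M)) _).trans (le_of_eq ?_)
    rw [← ENNReal.ofReal_mul (mul_nonneg (add_nonneg (mul_nonneg (hq0 M) (Nat.cast_nonneg _)) (hη0 M))
      (Nat.cast_nonneg _))]
    congr 1
    ring
  have hfin : ∫⁻ ω, ∑' M, F M ω ∂μ ≠ ⊤ := by
    refine ne_top_of_le_ne_top ?_ hint
    rw [← ENNReal.ofReal_tsum_of_nonneg (fun M => ?_) hsum]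
    · exact ENNReal.ofReal_ne_top
    · exact div_nonneg (mul_nonneg (add_nonneg (mul_nonneg (hq0 M) (Nat.cast_nonneg _)) (hη0 M))
        (Nat.cast_nonneg _)) (by positivity)
  have hae := ae_lt_top (Measurable.tsum hmF) hfin
  filter_upwards [hae, hev] with ω h1 h2
  have h3 := ENNReal.summable_toReal h1.ne
  have h4 : Summable fun M : ℕ => ‖S b h M (XX ξ f x ω)‖ ^ 2 / (M : ℝ) ^ 3 := by
    refine (summable_congr_atTop ?_).1 h3
    filter_upwards [h2] with M hM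
    rw [hF]
    simp only
    rw [Set.indicator_of_mem (by exact hM), ENNReal.toReal_mul, ENNReal.toReal_ofReal (by positivity),
      ENNReal.toReal_ofReal (by positivity)]
    ring
  have h5 := taub (fun M => S b h M (XX ξ f x ω)) (ex b (XX ξ f x ω) h) (ex_norm _ _ _)
    (fun M => rfl) h4
  exact h5

end H41.Rand
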