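import Pool.Agent.H41.Rand.Ev2

/-! # Very sparse random changes -/

set_option autoImplicit false

open Finset Filter Topology MeasureTheory ProbabilityTheory

namespace H41.Rand

open H41.SW

/-- the lengths of the blocks -/
def Y (k : ℕ) : ℕ := 2 ^ (2 ^ (k / 9))

lemma Y_pos (k : ℕ) : 0 < Y k := by unfold Y; positivity

lemma Y_mono {j k : ℕ} (h : j ≤ k) : Y j ≤ Y k := by
  unfold Y
  exact Nat.pow_le_pow_right (by norm_num) (Nat.pow_le_pow_right (by norm_num) (Nat.div_le_div_right h))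

/-- the places -/
def nu (k v : ℕ) : ℕ := (k + 1).factorial * (Y k + 1 + v)

lemma nu_ge (k v : ℕ) : k < nu k v := by
  unfold nu
  have h1 : k + 1 ≤ (k + 1).factorial := Nat.self_le_factorial _
  have h2 : (k + 1).factorial * 1 ≤ (k + 1).factorial * (Y k + 1 + v) := Nat.mul_le_mul_left _ (by omega)
  omega

lemma nu_Y (k v : ℕ) : Y k < nu k v := by
  unfold nu
  have h1 : 1 ≤ (k + 1).factorial := Nat.factorial_pos _
  have h2 : 1 * (Y k + 1 + v) ≤ (k + 1).factorial * (Y k + 1 + v) := Nat.mul_le_mul_right _ h1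
  omega

lemma nu_le (k v : ℕ) (hv : v < Y k) : nu k v ≤ (k + 1).factorial * (2 * Y k) := by
  unfold nu
  exact Nat.mul_le_mul_left _ (by omega)

lemma nu_dvd (p k v : ℕ) (hp : 0 < p) (h : p ≤ k + 1) : p ∣ nu k v := by
  unfold nu
  exact (Nat.dvd_factorial hp h).mul_right _

lemma nu_lt (j k w v : ℕ) (hjk : j < k) (hw : w < Y j) : nu j w < nu k v := by
  have h1 := nu_le j w hw
  have h2 : 2 * (j + 1).factorial ≤ (k + 1).factorial := by
    calc 2 * (j + 1).factorial ≤ (j + 2) * (j + 1).factorial := Nat.mul_le_mul_right _ (by omega)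
      _ = (j + 2).factorial := (Nat.factorial_succ (j + 1)).symm
      _ ≤ (k + 1).factorial := Nat.factorial_le (by omega)
  have h3 : (j + 1).factorial * (2 * Y j) < nu k v := by
    unfold nu
    calc (j + 1).factorial * (2 * Y j) = (2 * (j + 1).factorial) * Y j := by ring
      _ ≤ (k + 1).factorial * Y k := Nat.mul_le_mul h2 (Y_mono hjk.le)
      _ < (k + 1).factorial * (Y k + 1 + v) := Nat.mul_lt_mul_of_pos_left (by omega) (Nat.factorial_pos _)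
  omega

lemma nu_inj (k v w : ℕ) (h : v < w) : nu k v < nu k w := by
  unfold nu
  exact Nat.mul_lt_mul_of_pos_left (by omega) (Nat.factorial_pos _)

lemma sumY (k : ℕ) : ∑ j ∈ range k, 2 ^ (j / 9) + 9 = (9 + k % 9) * 2 ^ (k / 9) := by
  induction k with
  | zero => simp
  | succ k ih =>
    rw [sum_range_succ]
    have h1 : ∑ j ∈ range k, 2 ^ (j / 9) + 2 ^ (k / 9) + 9 = (9 + k % 9 + 1) * 2 ^ (k / 9) := by
      rw [add_right_comm, ih]
      ring
    rw [h1]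
    rcases Nat.lt_or_ge (k % 9) 8 with h | h
    · have e1 : (k + 1) % 9 = k % 9 + 1 := by omega
      have e2 : (k + 1) / 9 = k / 9 := by omega
      rw [e1, e2]
      ring
    · have e1 : (k + 1) % 9 = 0 := by omega
      have e2 : (k + 1) / 9 = k / 9 + 1 := by omega
      have e3 : k % 9 = 8 := by omega
      rw [e1, e2, e3]
      ring

lemma poly_bound : ∃ C0 : ℕ, ∀ k : ℕ, 4 * (k + 1) ^ 2 ≤ 2 ^ (k / 9) + C0 := by
  have h1 := tendsto_pow_const_div_const_pow_of_one_lt 2 (r := (2 : ℝ)) (by norm_num)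
  have h2 := h1.eventually (gt_mem_nhds (show (0 : ℝ) < 1 / 648 by norm_num))
  obtain ⟨J, hJ⟩ := eventually_atTop.1 h2
  refine ⟨4 * (9 * J + 9) ^ 2, fun k => ?_⟩
  rcases Nat.lt_or_ge (k / 9) J with h | h
  · have h3 : k + 1 ≤ 9 * J + 9 := by omega
    have := Nat.pow_le_pow_left h3 2
    exact (Nat.mul_le_mul_left 4 this).trans (Nat.le_add_left _ _)
  · have h3 := hJ (k / 9 + 1) (by omega)
    rw [div_lt_iff₀ (by positivity)] at h3
    have h4 : 324 * (k / 9 + 1) ^ 2 ≤ 2 ^ (k / 9) := by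
      have h5 : (324 * ((k / 9 + 1 : ℕ) : ℝ) ^ 2) ≤ 2 ^ (k / 9) := by
        have e1 : (2 : ℝ) ^ (k / 9 + 1) = 2 * 2 ^ (k / 9) := by ring
        rw [e1] at h3
        linarith
      exact_mod_cast h5
    have h5 : k + 1 ≤ 9 * (k / 9 + 1) := by omega
    have h6 := Nat.pow_le_pow_left h5 2
    have h7 : (9 * (k / 9 + 1)) ^ 2 = 81 * (k / 9 + 1) ^ 2 := by ring
    omega

lemma growthA : ∃ C : ℕ, ∀ k : ℕ, ((k + 1).factorial * (2 * Y k)) ^ 4 ≤ C * ∏ j ∈ range k, Y j := by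
  obtain ⟨C0, hC0⟩ := poly_bound
  refine ⟨2 ^ (C0 + 13), fun k => ?_⟩
  have h1 : (k + 1).factorial ≤ 2 ^ ((k + 1) ^ 2) := by
    calc (k + 1).factorial ≤ (k + 1) ^ (k + 1) := Nat.factorial_le_pow _
      _ ≤ (2 ^ (k + 1)) ^ (k + 1) := Nat.pow_le_pow_left Nat.lt_two_pow_self.le _
      _ = 2 ^ ((k + 1) ^ 2) := by rw [← pow_mul]; congr 1; ring
  have h2 : ∏ j ∈ range k, Y j = 2 ^ (∑ j ∈ range k, 2 ^ (j / 9)) := by
    unfold Y
    rw [prod_pow_eq_pow_sum]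
  rw [h2, ← pow_add]
  have h3 := sumY k
  have h4 := hC0 k
  obtain ⟨a, ha⟩ : ∃ a : ℕ, a = 2 ^ (k / 9) := ⟨_, rfl⟩
  have h5 : 9 * a ≤ ∑ j ∈ range k, 2 ^ (j / 9) + 9 := by
    rw [h3, ← ha]
    exact Nat.mul_le_mul_right _ (by omega)
  rw [← ha] at h4
  calc ((k + 1).factorial * (2 * Y k)) ^ 4 ≤ (2 ^ ((k + 1) ^ 2) * (2 * 2 ^ a)) ^ 4 := by
        refine Nat.pow_le_pow_left (Nat.mul_le_mul h1 ?_) 4
        unfold Y
        rw [← ha]
    _ = 2 ^ (4 * (k + 1) ^ 2 + 4 + 4 * a) := by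
        rw [mul_pow, mul_pow, ← pow_mul, ← pow_mul, pow_add, pow_add]
        ring_nf
    _ ≤ 2 ^ (C0 + 13 + ∑ j ∈ range k, 2 ^ (j / 9)) := Nat.pow_le_pow_right (by norm_num) (by omega)

/-- the indices used at the scale `2 ^ i` -/
def KB (k0 i : ℕ) : Finset ℕ :=
  (range (2 ^ i)).filter fun k => k0 ≤ k ∧ (k + 1).factorial * (2 * Y k) ≤ 2 ^ i

lemma growthB (k0 : ℕ) : ∃ C : ℕ, ∀ i : ℕ, 16 ^ i ≤ C * ∏ k ∈ KB k0 i, Y k := by
  obtain ⟨C, hC⟩ := growthA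
  refine ⟨C * ∏ j ∈ range k0, Y j, fun i => ?_⟩
  have hex : ∃ k, 2 ^ i < (k + 1).factorial * (2 * Y k) := by
    refine ⟨2 ^ i, ?_⟩
    have h1 : 2 ^ i + 1 ≤ (2 ^ i + 1).factorial := Nat.self_le_factorial _
    have h2 := Y_pos (2 ^ i)
    have h3 : (2 ^ i + 1).factorial * 1 ≤ (2 ^ i + 1).factorial * (2 * Y (2 ^ i)) :=
      Nat.mul_le_mul_left _ (by omega)
    omega
  classical
  obtain ⟨k1, hk1⟩ : ∃ k1, k1 = Nat.find hex := ⟨_, rfl⟩
  have h1 : 2 ^ i < (k1 + 1).factorial * (2 * Y k1) := by rw [hk1]; exact Nat.find_spec hex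
  have h2 : ∀ k < k1, (k + 1).factorial * (2 * Y k) ≤ 2 ^ i := fun k hk => by
    rw [hk1] at hk
    exact not_lt.1 (Nat.find_min hex hk)
  have h3 : ∏ j ∈ range k1, Y j ≤ (∏ j ∈ range k0, Y j) * ∏ k ∈ KB k0 i, Y k := by
    rcases le_or_gt k0 k1 with h | h
    · rw [← prod_range_mul_prod_Ico _ h]
      refine Nat.mul_le_mul_left _ ?_
      refine prod_le_prod_of_subset_of_one_le' ?_ fun k _ _ => Y_pos k
      intro k hk
      rw [mem_Ico] at hk
      unfold KB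
      rw [mem_filter, mem_range]
      have h4 := h2 k hk.2
      refine ⟨?_, hk.1, h4⟩
      have h5 : k + 1 ≤ (k + 1).factorial := Nat.self_le_factorial _
      have h6 := Y_pos k
      have h7 : (k + 1).factorial * 1 ≤ (k + 1).factorial * (2 * Y k) := Nat.mul_le_mul_left _ (by omega)
      omega
    · have h4 : ∏ j ∈ range k1, Y j ≤ ∏ j ∈ range k0, Y j :=
        prod_le_prod_of_subset_of_one_le' (range_subset_range.2 h.le) fun k _ _ => Y_pos k
      have h5 : 1 ≤ ∏ k ∈ KB k0 i, Y k := prod_pos fun k _ => Y_pos k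
      calc ∏ j ∈ range k1, Y j ≤ (∏ j ∈ range k0, Y j) * 1 := by omega
        _ ≤ _ := Nat.mul_le_mul_left _ h5
  calc 16 ^ i = (2 ^ i) ^ 4 := by rw [← pow_mul, mul_comm, pow_mul]; norm_num
    _ ≤ ((k1 + 1).factorial * (2 * Y k1)) ^ 4 := Nat.pow_le_pow_left h1.le 4
    _ ≤ C * ∏ j ∈ range k1, Y j := hC k1
    _ ≤ C * ((∏ j ∈ range k0, Y j) * ∏ k ∈ KB k0 i, Y k) := Nat.mul_le_mul_left _ h3
    _ = _ := by ring

variable {Ω : Type*} [MeasurableSpace Ω] (μ : Measure Ω) [IsProbabilityMeasure μ]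

theorem blocks_sum (ξ : ℕ → Ω → ℕ) (hξm : ∀ k, Measurable (ξ k)) (hξi : iIndepFun ξ μ)
    (hξY : ∀ k ω, ξ k ω < Y k) (hξP : ∀ k, ∀ v < Y k, μ.real {ω | ξ k ω = v} = 1 / Y k)
    (D : ℕ → ℕ) (hD0 : ∀ n, 0 < D n) (hDm : Monotone D)
    (hDg : ∀ᶠ i : ℕ in atTop, D (2 ^ i) ^ 2 ≤ 2 ^ (4 ^ i)) (hDs : Summable fun n => 1 / (D n : ℝ))
    (σ : ℕ → ℤ) (hσ : ∀ n, σ n = 1 ∨ σ n = -1) (x : ℝ)
    (b : ℕ) (hb : 2 ≤ b) (p : ℕ) (hp : p.Prime) (hpb : ¬ p ∣ b)
    (hdvd : ∀ n m, 0 < m → n < m → p ∣ m → p * D n ∣ D m)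
    (hcond : ∀ c s, ∃ n0, ∀ m, n0 ≤ m → p ∣ m → Cond p c s (D m)) (h : ℤ) (hh : h ≠ 0) :
    ∀ᵐ ω ∂μ, Tendsto (avg (ex b (x + ∑' k, (σ (nu k (ξ k ω)) : ℝ) / D (nu k (ξ k ω))) h))
      atTop (𝓝 0) := by
  classical
  obtain ⟨d, c, hd, hc, hlte⟩ := lte p b hp hb hpb
  obtain ⟨n0, hn0⟩ := hcond c (padicValNat p h.natAbs)
  obtain ⟨k0, hk0⟩ : ∃ k0 : ℕ, k0 = n0 + p := ⟨_, rfl⟩
  obtain ⟨C, hC⟩ := growthB k0
  obtain ⟨f, hf⟩ : ∃ f : ℕ → ℕ → ℝ, f = fun k v => (σ (nu k v) : ℝ) / D (nu k v) := ⟨_, rfl⟩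
  have hfg : ∀ k v, |f k v| ≤ 1 / (D k : ℝ) := by
    intro k v
    rw [hf]
    simp only
    have h1 : |(σ (nu k v) : ℝ)| = 1 := by
      rcases hσ (nu k v) with h1 | h1 <;> rw [h1] <;> simp
    rw [abs_div, h1, abs_of_pos (by exact_mod_cast hD0 _)]
    have h2 : (D k : ℝ) ≤ D (nu k v) := by exact_mod_cast hDm (nu_ge k v).le
    have h3 : (0 : ℝ) < D k := by exact_mod_cast hD0 k
    gcongr
  have hp1 : ¬ (p : ℤ) ∣ 1 := by
    intro h1
    have := Int.natCast_dvd_natCast.1 (by exact_mod_cast h1 : ((p : ℕ) : ℤ) ∣ ((1 : ℕ) : ℤ))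
    exact hp.one_lt.ne' (Nat.dvd_one.1 this)
  have hpσ : ∀ n, ¬ (p : ℤ) ∣ σ n := by
    intro n
    rcases hσ n with h1 | h1 <;> rw [h1]
    · exact hp1
    · exact fun h2 => hp1 ((dvd_neg).1 h2)
  have hlow : ∀ m n, 0 < m → n < m → p ∣ m → ∀ τ : ℤ, Low D p m (τ / D n) := fun m n hm hnm hpm τ =>
    low_of_dvd D p m n τ (hD0 n).ne' (hD0 m).ne' hp.pos.ne' (hdvd n m hm hnm hpm)
  have := core μ ξ hξm hξi f (fun n => 1 / (D n : ℝ)) hDs hfg x p b d c hp hb hpb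
    hd hc hlte h hh D hDm hDg
    (fun i => KB k0 i) (fun i => Fintype.piFinset fun k : KB k0 i => range (Y k)) C (Nat.cast_nonneg _)
    (fun i φ hφ => by
      rw [prob_conf μ ξ hξi]
      have h1 : ∏ k : KB k0 i, μ.real {ω | ξ k ω = φ k} = 1 / ((∏ k ∈ KB k0 i, Y k : ℕ) : ℝ) := by
        rw [prod_congr rfl fun (k : KB k0 i) _ => hξP k (φ k) (mem_range.1 (Fintype.mem_piFinset.1 hφ k)),
          prod_coe_sort (KB k0 i) (fun k => 1 / (Y k : ℝ)), prod_div_distrib]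
        push_cast
        simp
      rw [h1, div_le_div_iff₀ (by exact_mod_cast prod_pos fun k _ => Y_pos k) (by positivity), one_mul]
      exact_mod_cast hC i)
    (fun i φ hφ φ' hφ' hne => by
      refine diff_general _ φ φ' hne f D p (2 ^ i) c _ fun k hk => ?_
      have hk2 := mem_filter.1 k.2
      have g1 := mem_range.1 (Fintype.mem_piFinset.1 hφ k)
      have g2 := mem_range.1 (Fintype.mem_piFinset.1 hφ' k)
      have hle : ∀ v < Y k, nu k v ≤ 2 ^ i := fun v hv => (nu_le k v hv).trans hk2.2.2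
      have hdv : ∀ v, p ∣ nu k v := fun v => nu_dvd p k v hp.pos (by omega)
      have hcd : ∀ v, Cond p c (padicValNat p h.natAbs) (D (nu k v)) := fun v =>
        hn0 _ (by have := nu_ge k v; omega) (hdv v)
      have hrest : ∀ v, ∀ k' : KB k0 i, k' < k → Low D p (nu k v) (f k' (φ k')) ∧
          Low D p (nu k v) (f k' (φ' k')) := by
        intro v k' hk'
        have hlt : (k' : ℕ) < (k : ℕ) := hk'
        have g3 := mem_range.1 (Fintype.mem_piFinset.1 hφ k')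
        have g4 := mem_range.1 (Fintype.mem_piFinset.1 hφ' k')
        rw [hf]
        have g5 : 0 < nu (k : ℕ) v := by have := nu_ge k v; omega
        exact ⟨hlow _ _ g5 (nu_lt k' k _ v hlt g3) (hdv v) _, hlow _ _ g5 (nu_lt k' k _ v hlt g4) (hdv v) _⟩
      rcases lt_or_gt_of_ne hk with g | g
      · refine ⟨nu k (φ' k), hle _ g2, hcd _, ⟨-σ (nu k (φ' k)), ?_, ?_⟩, hrest _⟩
        · exact fun h2 => hpσ _ ((dvd_neg).1 h2)
        · have e1 : f k (φ k) - f k (φ' k) - ((-σ (nu k (φ' k)) : ℤ) : ℝ) / D (nu k (φ' k)) =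
              ((σ (nu k (φ k)) : ℤ) : ℝ) / D (nu k (φ k)) := by
            rw [hf]
            push_cast
            ring
          rw [e1]
          exact hlow _ _ (by have := nu_ge k (φ' k); omega) (nu_inj k _ _ g) (hdv _) _
      · refine ⟨nu k (φ k), hle _ g1, hcd _, ⟨σ (nu k (φ k)), hpσ _, ?_⟩, hrest _⟩
        have e1 : f k (φ k) - f k (φ' k) - (σ (nu k (φ k)) : ℝ) / D (nu k (φ k)) =
            ((-σ (nu k (φ' k)) : ℤ) : ℝ) / D (nu k (φ' k)) := by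
          rw [hf]
          push_cast
          ring
        rw [e1]
        exact hlow _ _ (by have := nu_ge k (φ k); omega) (nu_inj k _ _ g) (hdv _) _)
    (ae_of_all _ fun ω => Eventually.of_forall fun i => by
      rw [Fintype.mem_piFinset]
      exact fun k => mem_range.2 (hξY k ω))
  filter_upwards [this] with ω hω
  have e1 : XX ξ f x ω = x + ∑' k, (σ (nu k (ξ k ω)) : ℝ) / D (nu k (ξ k ω)) := by
    unfold XX
    rw [hf]
  rw [e1] at hω
  exact hω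

end H41.Rand
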