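import Pool.Agent.H41.Rand.Exist

/-! # Sparse changes of Cantor series -/

set_option autoImplicit false

open Finset Filter Topology MeasureTheory ProbabilityTheory

namespace H41.Rand

open H41.SW

lemma nu_gap (j k w v : ℕ) (hjk : j < k) (hw : w < Y j) : nu j w + (k + 1) ≤ nu k v := by
  have h1 := nu_le j w hw
  have h2 : 2 * (j + 1).factorial ≤ (k + 1).factorial := by
    calc 2 * (j + 1).factorial ≤ (j + 2) * (j + 1).factorial := Nat.mul_le_mul_right _ (by omega)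
      _ = (j + 2).factorial := (Nat.factorial_succ (j + 1)).symm
      _ ≤ (k + 1).factorial := Nat.factorial_le (by omega)
  have h3 : (j + 1).factorial * (2 * Y j) + (k + 1) ≤ nu k v := by
    unfold nu
    have h4 : k + 1 ≤ (k + 1).factorial := Nat.self_le_factorial _
    calc (j + 1).factorial * (2 * Y j) + (k + 1) = (2 * (j + 1).factorial) * Y j + (k + 1) := by ring
      _ ≤ (k + 1).factorial * Y k + (k + 1).factorial :=
          Nat.add_le_add (Nat.mul_le_mul h2 (Y_mono hjk.le)) h4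
      _ = (k + 1).factorial * (Y k + 1) := by ring
      _ ≤ (k + 1).factorial * (Y k + 1 + v) := Nat.mul_le_mul_left _ (by omega)
  omega

lemma nu_gap' (k v w : ℕ) (h : v < w) : nu k v + (k + 1) ≤ nu k w := by
  unfold nu
  have h4 : k + 1 ≤ (k + 1).factorial := Nat.self_le_factorial _
  calc (k + 1).factorial * (Y k + 1 + v) + (k + 1) ≤
        (k + 1).factorial * (Y k + 1 + v) + (k + 1).factorial := by omega
    _ = (k + 1).factorial * (Y k + 1 + v + 1) := by ring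
    _ ≤ (k + 1).factorial * (Y k + 1 + w) := Nat.mul_le_mul_left _ (by omega)

variable {Ω : Type*} [MeasurableSpace Ω] (μ : Measure Ω) [IsProbabilityMeasure μ]

theorem cantor_sum (ξ : ℕ → Ω → ℕ) (hξm : ∀ k, Measurable (ξ k)) (hξi : iIndepFun ξ μ)
    (hξY : ∀ k ω, ξ k ω < Y k) (hξP : ∀ k, ∀ v < Y k, μ.real {ω | ξ k ω = v} = 1 / Y k)
    (D : ℕ → ℕ) (hD0 : ∀ n, 0 < D n) (hDm : Monotone D)
    (hDg : ∀ᶠ i : ℕ in atTop, D (2 ^ i) ^ 2 ≤ 2 ^ (4 ^ i)) (hDs : Summable fun n => 1 / (D n : ℝ))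
    (σ : ℕ → ℤ) (hσ : ∀ n, σ n = 1 ∨ σ n = -1) (x : ℝ)
    (b : ℕ) (hb : 2 ≤ b) (p : ℕ) (hp : p.Prime) (hpb : ¬ p ∣ b) (g : ℕ)
    (hdvd : ∀ n m, n + g ≤ m → p * D n ∣ D m)
    (hcond : ∀ c s, ∃ n0, ∀ m, n0 ≤ m → Cond p c s (D m)) (h : ℤ) (hh : h ≠ 0) :
    ∀ᵐ ω ∂μ, Tendsto (avg (ex b (x + ∑' k, (σ (nu k (ξ k ω)) : ℝ) / D (nu k (ξ k ω))) h))
      atTop (𝓝 0) := by
  classical
  obtain ⟨d, c, hd, hc, hlte⟩ := lte p b hp hb hpb
  obtain ⟨n0, hn0⟩ := hcond c (padicValNat p h.natAbs)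
  obtain ⟨k0, hk0⟩ : ∃ k0 : ℕ, k0 = n0 + g := ⟨_, rfl⟩
  obtain ⟨C, hC⟩ := growthB k0
  obtain ⟨f, hf⟩ : ∃ f : ℕ → ℕ → ℝ, f = fun k v => (σ (nu k v) : ℝ) / D (nu k v) := ⟨_, rfl⟩
  have hfg : ∀ k v, |f k v| ≤ 1 / (D k : ℝ) := by
    intro k v
    rw [hf]
    simp only
    have h1 : |(σ (nu k v) : ℝ)| = 1 := by
      rcases hσ (nu k v) with h1 | h1 <;> rw [h1] <;> simp
    rw [abs_div, h1, abs_of_pos (by exact_mod_cast hD0 _)]
    have h2 : (D k : ℝ) ≤ D (nu k v) := by exact_mod_cast hDm (nu_ge k v).le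
    have h3 : (0 : ℝ) < D k := by exact_mod_cast hD0 k
    gcongr
  have hp1 : ¬ (p : ℤ) ∣ 1 := by
    intro h1
    have := Int.natCast_dvd_natCast.1 (by exact_mod_cast h1 : ((p : ℕ) : ℤ) ∣ ((1 : ℕ) : ℤ))
    exact hp.one_lt.ne' (Nat.dvd_one.1 this)
  have hpσ : ∀ n, ¬ (p : ℤ) ∣ σ n := by
    intro n
    rcases hσ n with h1 | h1 <;> rw [h1]
    · exact hp1
    · exact fun h2 => hp1 ((dvd_neg).1 h2)
  have hlow : ∀ m n, n + g ≤ m → ∀ τ : ℤ, Low D p m (τ / D n) := fun m n hnm τ =>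
    low_of_dvd D p m n τ (hD0 n).ne' (hD0 m).ne' hp.pos.ne' (hdvd n m hnm)
  have := core μ ξ hξm hξi f (fun n => 1 / (D n : ℝ)) hDs hfg x p b d c hp hb hpb
    hd hc hlte h hh D hDm hDg
    (fun i => KB k0 i) (fun i => Fintype.piFinset fun k : KB k0 i => range (Y k)) C (Nat.cast_nonneg _)
    (fun i φ hφ => by
      rw [prob_conf μ ξ hξi]
      have h1 : ∏ k : KB k0 i, μ.real {ω | ξ k ω = φ k} = 1 / ((∏ k ∈ KB k0 i, Y k : ℕ) : ℝ) := by
        rw [prod_congr rfl fun (k : KB k0 i) _ => hξP k (φ k) (mem_range.1 (Fintype.mem_piFinset.1 hφ k)),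
          prod_coe_sort (KB k0 i) (fun k => 1 / (Y k : ℝ)), prod_div_distrib]
        push_cast
        simp
      rw [h1, div_le_div_iff₀ (by exact_mod_cast prod_pos fun k _ => Y_pos k) (by positivity), one_mul]
      exact_mod_cast hC i)
    (fun i φ hφ φ' hφ' hne => by
      refine diff_general _ φ φ' hne f D p (2 ^ i) c _ fun k hk => ?_
      have hk2 := mem_filter.1 k.2
      have g1 := mem_range.1 (Fintype.mem_piFinset.1 hφ k)
      have g2 := mem_range.1 (Fintype.mem_piFinset.1 hφ' k)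
      have hle : ∀ v < Y k, nu k v ≤ 2 ^ i := fun v hv => (nu_le k v hv).trans hk2.2.2
      have hcd : ∀ v, Cond p c (padicValNat p h.natAbs) (D (nu k v)) := fun v =>
        hn0 _ (by have := nu_ge k v; omega)
      have hrest : ∀ v, ∀ k' : KB k0 i, k' < k → Low D p (nu k v) (f k' (φ k')) ∧
          Low D p (nu k v) (f k' (φ' k')) := by
        intro v k' hk'
        have hlt : (k' : ℕ) < (k : ℕ) := hk'
        have g3 := mem_range.1 (Fintype.mem_piFinset.1 hφ k')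
        have g4 := mem_range.1 (Fintype.mem_piFinset.1 hφ' k')
        rw [hf]
        have g5 := nu_gap k' k (φ k') v hlt g3
        have g6 := nu_gap k' k (φ' k') v hlt g4
        exact ⟨hlow _ _ (by omega) _, hlow _ _ (by omega) _⟩
      rcases lt_or_gt_of_ne hk with g | g
      · refine ⟨nu k (φ' k), hle _ g2, hcd _, ⟨-σ (nu k (φ' k)), ?_, ?_⟩, hrest _⟩
        · exact fun h2 => hpσ _ ((dvd_neg).1 h2)
        · have e1 : f k (φ k) - f k (φ' k) - ((-σ (nu k (φ' k)) : ℤ) : ℝ) / D (nu k (φ' k)) =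
              ((σ (nu k (φ k)) : ℤ) : ℝ) / D (nu k (φ k)) := by
            rw [hf]
            push_cast
            ring
          rw [e1]
          have g5 := nu_gap' k _ _ g
          exact hlow _ _ (by omega) _
      · refine ⟨nu k (φ k), hle _ g1, hcd _, ⟨σ (nu k (φ k)), hpσ _, ?_⟩, hrest _⟩
        have e1 : f k (φ k) - f k (φ' k) - (σ (nu k (φ k)) : ℝ) / D (nu k (φ k)) =
            ((-σ (nu k (φ' k)) : ℤ) : ℝ) / D (nu k (φ' k)) := by
          rw [hf]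
          push_cast
          ring
        rw [e1]
        have g5 := nu_gap' k _ _ g
        exact hlow _ _ (by omega) _)
    (ae_of_all _ fun ω => Eventually.of_forall fun i => by
      rw [Fintype.mem_piFinset]
      exact fun k => mem_range.2 (hξY k ω))
  filter_upwards [this] with ω hω
  have e1 : XX ξ f x ω = x + ∑' k, (σ (nu k (ξ k ω)) : ℝ) / D (nu k (ξ k ω)) := by
    unfold XX
    rw [hf]
  rw [e1] at hω
  exact hω

/-- the denominators of a Cantor series -/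
def den (q : ℕ → ℕ) (n : ℕ) : ℕ := ∏ i ∈ Icc 1 n, q i

lemma den_succ (q : ℕ → ℕ) (n : ℕ) : den q (n + 1) = den q n * q (n + 1) := by
  unfold den
  rw [prod_Icc_succ_top (by omega)]

lemma den_pos (q : ℕ → ℕ) (hq : ∀ n, 1 ≤ n → 1 ≤ q n) (n : ℕ) : 0 < den q n :=
  prod_pos fun i hi => by have := hq i (mem_Icc.1 hi).1; omega

lemma den_mono (q : ℕ → ℕ) (hq : ∀ n, 1 ≤ n → 1 ≤ q n) : Monotone (den q) := by
  refine monotone_nat_of_le_succ fun n => ?_
  rw [den_succ]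
  exact Nat.le_mul_of_pos_right _ (by have := hq (n + 1) (by omega); omega)

lemma den_ge (q : ℕ → ℕ) (hq : ∀ n, 1 ≤ n → 1 ≤ q n) (hq2 : ∀ n, 2 ≤ n → 2 ≤ q n) (n : ℕ) :
    2 ^ n ≤ 2 * den q n := by
  induction n with
  | zero => simp [den]
  | succ n ih =>
    rw [den_succ, pow_succ, ← mul_assoc]
    rcases Nat.eq_zero_or_pos n with h | h
    · subst h
      have := hq 1 le_rfl
      simp [den]
      omega
    · exact Nat.mul_le_mul ih (hq2 (n + 1) (by omega))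

lemma den_dvd (q : ℕ → ℕ) {n m : ℕ} (h : n ≤ m) : den q n ∣ den q m := by
  unfold den
  exact prod_dvd_prod_of_subset _ _ _ (Icc_subset_Icc_right h)

lemma den_dvd_p (q : ℕ → ℕ) (p g : ℕ) (hg : ∀ n, ∃ j, n < j ∧ j ≤ n + g ∧ p ∣ q j) (n m : ℕ)
    (h : n + g ≤ m) : p * den q n ∣ den q m := by
  obtain ⟨j, h1, h2, h3⟩ := hg n
  obtain ⟨i, rfl⟩ : ∃ i, j = i + 1 := ⟨j - 1, by omega⟩
  have h4 : den q n ∣ den q i := den_dvd q (by omega)
  have h5 : p * den q n ∣ den q (i + 1) := by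
    rw [den_succ, mul_comm p]
    exact mul_dvd_mul h4 h3
  exact h5.trans (den_dvd q (by omega))

lemma den_pow (q : ℕ → ℕ) (p g : ℕ) (hg : ∀ n, ∃ j, n < j ∧ j ≤ n + g ∧ p ∣ q j) (k : ℕ) :
    p ^ k ∣ den q (g * k) := by
  induction k with
  | zero => simp
  | succ k ih =>
    rw [pow_succ, mul_comm]
    exact (mul_dvd_mul_left p ih).trans (den_dvd_p q p g hg _ _ (by rw [mul_add, mul_one]))

/-- `log q_n = o(n)` -/
def Slow (q : ℕ → ℕ) : Prop := Tendsto (fun n : ℕ => Real.log (q n) / n) atTop (𝓝 0)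

lemma slow_bound (q : ℕ → ℕ) (hq : ∀ n, 1 ≤ n → 1 ≤ q n) (hs : Slow q) (ε : ℝ) (hε : 0 < ε) :
    ∃ C : ℝ, 0 ≤ C ∧ ∀ n, 1 ≤ n → Real.log (q n) ≤ ε * n + C := by
  obtain ⟨n0, hn0⟩ := eventually_atTop.1 (hs.eventually (gt_mem_nhds hε))
  refine ⟨∑ n ∈ Icc 1 n0, Real.log (q n), ?_, fun n hn => ?_⟩
  · refine sum_nonneg fun n hn => Real.log_nonneg ?_
    have := hq n (mem_Icc.1 hn).1
    exact_mod_cast (by omega : 1 ≤ q n)
  · have hpos : ∀ n, 1 ≤ n → 0 ≤ Real.log (q n) := fun n hn => Real.log_nonneg (by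
      have := hq n hn
      exact_mod_cast (by omega : 1 ≤ q n))
    have hn' : (0 : ℝ) < n := by exact_mod_cast (by omega : 0 < n)
    rcases le_or_gt n n0 with h | h
    · have h1 : Real.log (q n) ≤ ∑ n ∈ Icc 1 n0, Real.log (q n) :=
        single_le_sum (f := fun n => Real.log (q n)) (fun i hi => hpos i (mem_Icc.1 hi).1)
          (mem_Icc.2 ⟨hn, h⟩)
      have : 0 ≤ ε * n := by positivity
      linarith
    · have h1 := hn0 n h.le
      rw [div_lt_iff₀ hn'] at h1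
      have h2 : 0 ≤ ∑ n ∈ Icc 1 n0, Real.log (q n) := sum_nonneg fun i hi => hpos i (mem_Icc.1 hi).1
      linarith

lemma den_log (q : ℕ → ℕ) (hq : ∀ n, 1 ≤ n → 1 ≤ q n) (ε C : ℝ) (hε : 0 < ε)
    (hC : ∀ n, 1 ≤ n → Real.log (q n) ≤ ε * n + C) (n : ℕ) :
    Real.log (den q n) ≤ ε * n ^ 2 + C * n := by
  induction n with
  | zero => simp [den]
  | succ n ih =>
    rw [den_succ]
    push_cast
    have h1 := den_pos q hq n
    have h2 := hq (n + 1) (by omega)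
    rw [Real.log_mul (by exact_mod_cast h1.ne') (by exact_mod_cast (by omega : q (n + 1) ≠ 0))]
    have h3 := hC (n + 1) (by omega)
    push_cast at h3
    have h4 : (0 : ℝ) ≤ n := Nat.cast_nonneg n
    nlinarith [mul_nonneg hε.le h4]

lemma den_growth (q : ℕ → ℕ) (hq : ∀ n, 1 ≤ n → 1 ≤ q n) (hs : Slow q) :
    ∀ᶠ i : ℕ in atTop, den q (2 ^ i) ^ 2 ≤ 2 ^ (4 ^ i) := by
  have hl2 : 0 < Real.log 2 := Real.log_pos (by norm_num)
  obtain ⟨C, hC0, hC⟩ := slow_bound q hq hs (Real.log 2 / 4) (by positivity)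
  obtain ⟨i0, hi0⟩ := exists_nat_gt (4 * C / Real.log 2)
  filter_upwards [eventually_ge_atTop i0] with i hi
  have h1 := den_log q hq _ C (by positivity) hC (2 ^ i)
  have h2 : (i0 : ℝ) ≤ (2 ^ i : ℕ) := by
    have : i0 ≤ 2 ^ i := hi.trans Nat.lt_two_pow_self.le
    exact_mod_cast this
  have h3 : 4 * C ≤ ((2 ^ i : ℕ) : ℝ) * Real.log 2 := by
    rw [div_lt_iff₀ hl2] at hi0
    nlinarith
  have h4 : Real.log (den q (2 ^ i)) * 2 ≤ (4 ^ i : ℕ) * Real.log 2 := by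
    have e1 : ((4 ^ i : ℕ) : ℝ) = ((2 ^ i : ℕ) : ℝ) ^ 2 := by
      push_cast
      rw [← pow_mul, mul_comm, pow_mul]
      norm_num
    rw [e1]
    have h5 : (0 : ℝ) ≤ ((2 ^ i : ℕ) : ℝ) := Nat.cast_nonneg _
    nlinarith [mul_le_mul_of_nonneg_right h3 h5]
  have h5 : Real.log ((den q (2 ^ i) ^ 2 : ℕ) : ℝ) ≤ Real.log ((2 ^ (4 ^ i) : ℕ) : ℝ) := by
    push_cast
    rw [Real.log_pow, Real.log_pow]
    push_cast at h4 ⊢
    linarith
  have h6 := den_pos q hq (2 ^ i)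
  have h7 := (Real.log_le_log_iff (by positivity) (by positivity)).1 h5
  exact_mod_cast h7

lemma den_cond (q : ℕ → ℕ) (hq : ∀ n, 1 ≤ n → 1 ≤ q n) (hs : Slow q) (p g : ℕ) (hp : p.Prime)
    (hg : ∀ n, ∃ j, n < j ∧ j ≤ n + g ∧ p ∣ q j) (c s : ℕ) :
    ∃ n0, ∀ m, n0 ≤ m → Cond p c s (den q m) := by
  have := Fact.mk hp
  have hg0 : 0 < g := by
    obtain ⟨j, h1, h2, -⟩ := hg 0
    omega
  have hgr : (0 : ℝ) < g := by exact_mod_cast hg0
  have hl2 : 0 < Real.log 2 := Real.log_pos (by norm_num)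
  obtain ⟨C, hC0, hC⟩ := slow_bound q hq hs (Real.log 2 / (2 * g)) (by positivity)
  obtain ⟨i0, hi0⟩ := exists_nat_gt (2 * g * (C / Real.log 2 + s + c + 2))
  refine ⟨i0 + g * (c + 1 + s), fun m hm => ?_⟩
  have hv : m / g ≤ padicValNat p (den q m) :=
    (padicValNat_dvd_iff_le (den_pos q hq m).ne').1
      ((den_pow q p g hg (m / g)).trans (den_dvd q (Nat.mul_div_le m g)))
  have hm1 : c + 1 + s ≤ m / g := by
    rw [Nat.le_div_iff_mul_le hg0, mul_comm]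
    omega
  refine ⟨den_pos q hq m, by omega, fun r hrp hr => ?_⟩
  unfold den at hr
  obtain ⟨i, hi, hri⟩ := (Prime.dvd_finsetProd_iff (Nat.prime_iff.1 hrp) _).1 hr
  rw [mem_Icc] at hi
  have h1 : r ≤ q i := Nat.le_of_dvd (by have := hq i hi.1; omega) hri
  have h2 : Real.log (q i) ≤ Real.log 2 * (m / (2 * g)) + C := by
    have h3 := hC i hi.1
    have h4 : (i : ℝ) ≤ m := by exact_mod_cast hi.2
    have h5 : Real.log 2 / (2 * g) * i ≤ Real.log 2 / (2 * g) * m := by gcongr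
    have h6 : Real.log 2 / (2 * g) * (m : ℝ) = Real.log 2 * (m / (2 * g)) := by ring
    linarith
  have h3 : Real.log (q i) ≤ Real.log ((2 ^ (padicValNat p (den q m) - s - c) : ℕ) : ℝ) := by
    push_cast
    rw [Real.log_pow]
    have h4 : (m : ℝ) / g - 1 ≤ ((m / g : ℕ) : ℝ) := by
      have h5 := Nat.lt_div_mul_add (a := m) hg0
      have h6 : (m : ℝ) < (m / g : ℕ) * g + g := by exact_mod_cast h5
      rw [div_sub_one hgr.ne', div_le_iff₀ hgr]
      linarith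
    have h5 : ((m / g : ℕ) : ℝ) - s - c ≤ ((padicValNat p (den q m) - s - c : ℕ) : ℝ) := by
      have h6 : m / g ≤ (padicValNat p (den q m) - s - c) + s + c := by omega
      have h7 : ((m / g : ℕ) : ℝ) ≤ ((padicValNat p (den q m) - s - c : ℕ) : ℝ) + s + c := by
        exact_mod_cast h6
      linarith
    have h6 : 2 * g * (C / Real.log 2 + s + c + 2) < m := by
      refine hi0.trans_le ?_
      exact_mod_cast (by omega : i0 ≤ m)
    have h7 : C / Real.log 2 + s + c + 2 < m / (2 * g) := by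
      rw [lt_div_iff₀ (by positivity)]
      linarith
    have h8 : (m : ℝ) / (2 * g) + C / Real.log 2 ≤ ((padicValNat p (den q m) - s - c : ℕ) : ℝ) := by
      have h9 : (m : ℝ) / g = m / (2 * g) + m / (2 * g) := by field_simp; norm_num
      linarith
    have h9 : Real.log 2 * (m / (2 * g)) + C = Real.log 2 * (m / (2 * g) + C / Real.log 2) := by
      field_simp
    calc Real.log (q i) ≤ Real.log 2 * (m / (2 * g)) + C := h2
      _ = Real.log 2 * (m / (2 * g) + C / Real.log 2) := h9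
      _ ≤ Real.log 2 * ((padicValNat p (den q m) - s - c : ℕ) : ℝ) := by gcongr
      _ = _ := by ring
  have h4 : 0 < q i := by have := hq i hi.1; omega
  have h5 := (Real.log_le_log_iff (by exact_mod_cast h4) (by positivity)).1 h3
  have h6 : q i ≤ 2 ^ (padicValNat p (den q m) - s - c) := by exact_mod_cast h5
  exact h1.trans (h6.trans (Nat.pow_le_pow_left hp.two_le _))

theorem sparse_cantor : ∃ C : ℝ, 0 < C ∧ ∀ (q : ℕ → ℕ), (∀ n, 1 ≤ n → 1 ≤ q n) → (∀ n, 2 ≤ n → 2 ≤ q n) → Slow q →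
    ∀ σ : ℕ → ℤ, (∀ n, σ n = 1 ∨ σ n = -1) → ∀ T : Set ℝ, T.Countable → ∃ A : Set ℕ, 0 ∉ A ∧
    (∀ N : ℕ, 3 ≤ N → ((A ∩ Set.Icc 1 N).ncard : ℝ) ≤ C * Real.log (Real.log N)) ∧
    ∀ x ∈ T, ∀ b : ℕ, 2 ≤ b →
      (∃ p : ℕ, p.Prime ∧ ¬ p ∣ b ∧ ∃ g : ℕ, ∀ n, ∃ j, n < j ∧ j ≤ n + g ∧ p ∣ q j) →
      SW.Normal b (x + ∑' n, A.indicator (fun n => (σ n : ℝ) / den q n) n) := by
  obtain ⟨C, hC, hC2⟩ := loglog_bound
  refine ⟨C, hC, fun q hq hq2 hs σ hσ T hT => ?_⟩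
  obtain ⟨Ω, mΩ, P, hP, ξ, hξm, hξi, hξY, hξP⟩ := exists_xi
  have hds : Summable fun n : ℕ => 1 / (den q n : ℝ) := by
    have h1 : Summable fun n : ℕ => 2 * (1 / (2 : ℝ)) ^ n := summable_geometric_two.mul_left 2
    refine Summable.of_nonneg_of_le (fun n => by positivity) (fun n => ?_) h1
    rw [one_div_pow, mul_one_div]
    have h2 : ((2 ^ n : ℕ) : ℝ) ≤ 2 * den q n := by exact_mod_cast den_ge q hq hq2 n
    push_cast at h2
    have h3 : (0 : ℝ) < den q n := by exact_mod_cast den_pos q hq n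
    rw [div_le_div_iff₀ h3 (by positivity)]
    linarith
  have hF : ∀ᵐ ω ∂P, ∀ x ∈ T, ∀ b : ℕ, 2 ≤ b →
      (∃ p : ℕ, p.Prime ∧ ¬ p ∣ b ∧ ∃ g : ℕ, ∀ n, ∃ j, n < j ∧ j ≤ n + g ∧ p ∣ q j) →
      ∀ h : ℤ, h ≠ 0 →
      Tendsto (avg (ex b (x + ∑' k, (σ (nu k (ξ k ω)) : ℝ) / den q (nu k (ξ k ω))) h))
        atTop (𝓝 0) := by
    rw [ae_ball_iff hT]
    intro x hx
    rw [ae_all_iff]
    intro b
    rw [ae_all_iff]
    intro hb
    rw [ae_all_iff]
    rintro ⟨p, hp, hpb, g, hg⟩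
    rw [ae_all_iff]
    intro h
    rw [ae_all_iff]
    intro hh
    exact cantor_sum P ξ hξm hξi hξY hξP (den q) (den_pos q hq)
      (den_mono q hq) (den_growth q hq hs) hds σ hσ x b hb p hp hpb g
      (fun n m hnm => den_dvd_p q p g hg n m hnm) (fun c s => den_cond q hq hs p g hp hg c s) h hh
  obtain ⟨ω, h1⟩ := hF.exists
  obtain ⟨A, hA⟩ : ∃ A : Set ℕ, A = Set.range fun k => nu k (ξ k ω) := ⟨_, rfl⟩
  refine ⟨A, ?_, fun N hN => ?_, fun x hx b hb hp => ?_⟩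
  · rw [hA]
    rintro ⟨k, hk⟩
    have := nu_ge k (ξ k ω)
    simp only at hk
    omega
  · refine le_trans ?_ (hC2 N hN)
    rw [hA]
    exact_mod_cast count_nu (fun k => ξ k ω) N
  · refine normal_of b hb _ fun h hh => ?_
    have h4 := h1 x hx b hb hp h hh
    rw [tsum_nu (fun k => ξ k ω) (fun k => hξY k ω) (fun n => (σ n : ℝ) / den q n), ← hA] at h4
    exact h4

end H41.Rand
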