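import Pool.Agent.H41.Rand.AE

/-! # The core theorem: dyadic scales -/

set_option autoImplicit false

open Finset Filter Topology MeasureTheory ProbabilityTheory

namespace H41.Rand

open H41.SW

/-- the scale belonging to `M` -/
def sc (M : ℕ) : ℕ := Nat.log 2 (Nat.log 2 M) / 2

lemma sc_le (M : ℕ) (hM : 2 ≤ M) : 2 ^ (4 ^ sc M) ≤ M := by
  have h1 : 1 ≤ Nat.log 2 M := Nat.log_pos (by norm_num) hM
  have h2 : 4 ^ sc M ≤ Nat.log 2 M := by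
    calc 4 ^ sc M = 2 ^ (2 * sc M) := by rw [pow_mul]; norm_num
      _ ≤ 2 ^ (Nat.log 2 (Nat.log 2 M)) := Nat.pow_le_pow_right (by norm_num) (Nat.mul_div_le _ _)
      _ ≤ Nat.log 2 M := Nat.pow_log_le_self 2 (by omega)
  exact (Nat.pow_le_pow_right (by norm_num) h2).trans (Nat.pow_log_le_self 2 (by omega))

lemma lt_sc (M : ℕ) : Nat.log 2 M + 1 ≤ 4 ^ (sc M + 1) := by
  have h1 : Nat.log 2 M < 2 ^ (Nat.log 2 (Nat.log 2 M) + 1) := Nat.lt_pow_succ_log_self (by norm_num) _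
  have h2 : 2 ^ (Nat.log 2 (Nat.log 2 M) + 1) ≤ 4 ^ (sc M + 1) := by
    calc 2 ^ (Nat.log 2 (Nat.log 2 M) + 1) ≤ 2 ^ (2 * (sc M + 1)) :=
          Nat.pow_le_pow_right (by norm_num) (by unfold sc; omega)
      _ = 4 ^ (sc M + 1) := by rw [pow_mul]; norm_num
  omega

lemma sc_tendsto : Tendsto sc atTop atTop := by
  unfold sc
  have h1 : Tendsto (fun M => Nat.log 2 M) atTop atTop := by
    rw [tendsto_atTop_atTop]
    exact fun B => ⟨2 ^ B, fun a ha => (Nat.le_log_iff_pow_le (by norm_num) (by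
      have := Nat.one_le_pow B 2 (by norm_num)
      omega)).2 ha⟩
  exact (Nat.tendsto_div_const_atTop (by norm_num)).comp (h1.comp h1)

lemma summable_log : Summable fun M : ℕ => 1 / ((M : ℝ) * ((Nat.log 2 M : ℕ) + 1 : ℝ) ^ 2) := by
  refine (summable_condensed_iff_of_nonneg (fun n => by positivity) ?_).1 ?_
  · intro m n hm hmn
    have h1 : Nat.log 2 m ≤ Nat.log 2 n := Nat.log_mono_right hmn
    have h2 : (0 : ℝ) < m := by exact_mod_cast hm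
    gcongr
  · have h1 : ∀ k : ℕ, (2 : ℝ) ^ k * (1 / (((2 ^ k : ℕ) : ℝ) * ((Nat.log 2 (2 ^ k) : ℕ) + 1 : ℝ) ^ 2)) =
        1 / ((k : ℝ) + 1) ^ 2 := by
      intro k
      rw [Nat.log_pow (by norm_num)]
      push_cast
      field_simp
    simp_rw [h1]
    have h2 := (summable_nat_add_iff 1).2 (Real.summable_one_div_nat_pow.2 (by norm_num : 1 < 2))
    simpa using h2

variable {Ω : Type*} [MeasurableSpace Ω] (μ : Measure Ω) [IsProbabilityMeasure μ]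
  (ξ : ℕ → Ω → ℕ)

theorem core (hm : ∀ k, Measurable (ξ k)) (hind : iIndepFun ξ μ)
    (f : ℕ → ℕ → ℝ) (g : ℕ → ℝ) (hg : Summable g) (hfg : ∀ k v, |f k v| ≤ g k) (x : ℝ)
    (p b d c : ℕ) (hp : p.Prime) (hb : 2 ≤ b) (hpb : ¬ p ∣ b) (hd : 0 < d)
    (hc : 1 ≤ c)
    (hlte : ∀ m : ℕ, 0 < m → padicValNat p (b ^ (d * m) - 1) = c + padicValNat p m)
    (h : ℤ) (hh : h ≠ 0) (D : ℕ → ℕ) (hDm : Monotone D)
    (hDg : ∀ᶠ i : ℕ in atTop, D (2 ^ i) ^ 2 ≤ 2 ^ (4 ^ i))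
    (K : ℕ → Finset ℕ) (Φ : (i : ℕ) → Finset (K i → ℕ)) (C : ℝ) (hC : 0 ≤ C)
    (hq : ∀ i, ∀ φ ∈ Φ i, μ.real {ω | conf ξ (K i) ω = φ} ≤ C / 16 ^ i)
    (hdiff : ∀ i, ∀ φ ∈ Φ i, ∀ φ' ∈ Φ i, φ ≠ φ' → ∃ m ≤ 2 ^ i, ∃ A : ℤ, ¬ (p : ℤ) ∣ A ∧
      val f (K i) φ - val f (K i) φ' = A / D m ∧ Cond p c (padicValNat p h.natAbs) (D m))
    (hev : ∀ᵐ ω ∂μ, ∀ᶠ i in atTop, conf ξ (K i) ω ∈ Φ i) :
    ∀ᵐ ω ∂μ, Tendsto (avg (ex b (XX ξ f x ω) h)) atTop (𝓝 0) := by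
  refine ae_zero μ ξ hm hind f g hg hfg x b h (fun M => K (sc M)) (fun M => Φ (sc M))
    (fun M => C / 16 ^ sc M) (fun M => 2 * D (2 ^ sc M)) (fun M => by positivity)
    (fun M => by positivity) (fun M => hq _) ?_ ?_ ?_
  · intro M φ hφ φ' hφ' hne
    obtain ⟨m, hm, A, hA, hv, hcond⟩ := hdiff _ φ hφ φ' hφ' hne
    rw [hv]
    refine (key p b d c hp hb hpb hd hc hlte h hh (D m) hcond A hA M).trans ?_
    have : (D m : ℝ) ≤ D (2 ^ sc M) := by exact_mod_cast hDm hm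
    linarith
  · -- summability
    have h1 : Summable fun M : ℕ => 16 * C * (1 / ((M : ℝ) * ((Nat.log 2 M : ℕ) + 1 : ℝ) ^ 2)) +
        2 * (1 / (M : ℝ) ^ (3 / 2 : ℝ)) :=
      (summable_log.mul_left _).add ((Real.summable_one_div_nat_rpow.2 (by norm_num)).mul_left _)
    refine Summable.of_norm_bounded_eventually_nat h1 ?_
    filter_upwards [sc_tendsto.eventually hDg, eventually_ge_atTop 2] with M hM hM2
    have hMr : (0 : ℝ) < M := by exact_mod_cast (by omega : 0 < M)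
    rw [Real.norm_of_nonneg (by positivity)]
    have e1 : (C / 16 ^ sc M * (M : ℝ) + 2 * (D (2 ^ sc M) : ℝ)) * M / (M : ℝ) ^ 3 =
        C / 16 ^ sc M / M + 2 * ((D (2 ^ sc M) : ℝ) / (M : ℝ) ^ 2) := by
      field_simp
    rw [e1]
    refine add_le_add ?_ ?_
    · have h2 := lt_sc M
      have h3 : ((Nat.log 2 M : ℕ) + 1 : ℝ) ≤ 4 ^ (sc M + 1) := by exact_mod_cast h2
      have h4 : ((Nat.log 2 M : ℕ) + 1 : ℝ) ^ 2 ≤ 16 * 16 ^ sc M := by
        calc ((Nat.log 2 M : ℕ) + 1 : ℝ) ^ 2 ≤ (4 ^ (sc M + 1)) ^ 2 := by gcongr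
          _ = 16 * 16 ^ sc M := by
            rw [← pow_mul, mul_comm, pow_mul, pow_succ]
            norm_num
            ring
      have h5 : (0 : ℝ) < 16 ^ sc M := by positivity
      have h6 : (0 : ℝ) < ((Nat.log 2 M : ℕ) + 1 : ℝ) ^ 2 := by positivity
      rw [div_div, mul_one_div, div_le_div_iff₀ (by positivity) (by positivity)]
      nlinarith [mul_nonneg hC hMr.le]
    · have h2 : (D (2 ^ sc M) : ℝ) ≤ (M : ℝ) ^ (1 / 2 : ℝ) := by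
        rw [← Real.sqrt_eq_rpow]
        refine Real.le_sqrt_of_sq_le ?_
        exact_mod_cast hM.trans (sc_le M hM2)
      have h3 : 1 / (M : ℝ) ^ (3 / 2 : ℝ) = (M : ℝ) ^ (1 / 2 : ℝ) / (M : ℝ) ^ 2 := by
        have h4 : (M : ℝ) ^ 2 = (M : ℝ) ^ (1 / 2 : ℝ) * (M : ℝ) ^ (3 / 2 : ℝ) := by
          rw [← Real.rpow_add hMr, ← Real.rpow_natCast]
          norm_num
        have h5 : (0 : ℝ) < (M : ℝ) ^ (1 / 2 : ℝ) := Real.rpow_pos_of_pos hMr _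
        have h6 : (0 : ℝ) < (M : ℝ) ^ (3 / 2 : ℝ) := Real.rpow_pos_of_pos hMr _
        rw [h4]
        field_simp
      rw [h3]
      gcongr
  · filter_upwards [hev] with ω hω
    exact sc_tendsto.eventually hω

end H41.Rand
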