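import Pool.Agent.H41.Rand.Core

/-! # Differences of configurations -/

set_option autoImplicit false

open Finset Filter Topology MeasureTheory ProbabilityTheory

namespace H41.Rand

open H41.SW

lemma diff_general (K : Finset ℕ) (φ φ' : K → ℕ) (hne : φ ≠ φ') (f : ℕ → ℕ → ℝ) (D : ℕ → ℕ)
    (p Y c s : ℕ)
    (H : ∀ k : K, φ k ≠ φ' k → ∃ m ≤ Y, Cond p c s (D m) ∧
      (∃ τ : ℤ, ¬ (p : ℤ) ∣ τ ∧ Low D p m (f k (φ k) - f k (φ' k) - τ / D m)) ∧
      ∀ k' : K, k' < k → Low D p m (f k' (φ k')) ∧ Low D p m (f k' (φ' k'))) :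
    ∃ m ≤ Y, ∃ A : ℤ, ¬ (p : ℤ) ∣ A ∧ val f K φ - val f K φ' = A / D m ∧ Cond p c s (D m) := by
  classical
  have hT : (univ.filter fun k : K => φ k ≠ φ' k).Nonempty := by
    by_contra h
    rw [not_nonempty_iff_eq_empty, filter_eq_empty_iff] at h
    exact hne (funext fun k => by simpa using h (mem_univ k))
  obtain ⟨k, hk, hmax⟩ := exists_max_image _ (fun k : K => (k : ℕ)) hT
  rw [mem_filter] at hk
  obtain ⟨m, hmY, hcond, ⟨τ, hτ, hlow⟩, hl⟩ := H k hk.2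
  have h1 : val f K φ - val f K φ' = (τ : ℝ) / D m + ((f k (φ k) - f k (φ' k) - τ / D m) +
      ∑ k' ∈ univ.erase k, (f k' (φ k') - f k' (φ' k'))) := by
    unfold val
    rw [← sum_sub_distrib, ← add_sum_erase univ _ (mem_univ k)]
    ring
  have h2 : Low D p m (∑ k' ∈ univ.erase k, (f k' (φ k') - f k' (φ' k'))) := by
    refine low_sum D p m _ _ fun k' hk' => ?_
    have hne' := ne_of_mem_erase hk'
    by_cases h3 : φ k' = φ' k'
    · rw [h3, sub_self]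
      exact low_zero D p m
    · have h4 := hmax k' (mem_filter.2 ⟨mem_univ _, h3⟩)
      have h5 : k' < k := lt_of_le_of_ne h4 hne'
      exact low_sub D p m (hl k' h5).1 (hl k' h5).2
  obtain ⟨A, hA, hA2⟩ := top_low D p m τ hτ (low_add D p m hlow h2)
  exact ⟨m, hmY, A, hA, h1.trans hA2, hcond⟩

lemma fact_dvd (p n m : ℕ) (hm : 0 < m) (hnm : n < m) (hpm : p ∣ m) :
    p * n.factorial ∣ m.factorial := by
  obtain ⟨j, rfl⟩ : ∃ j, m = j + 1 := ⟨m - 1, by omega⟩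
  rw [Nat.factorial_succ]
  exact mul_dvd_mul hpm (Nat.factorial_dvd_factorial (by omega))

lemma fact_growth : ∀ᶠ i : ℕ in atTop, (2 ^ i).factorial ^ 2 ≤ 2 ^ (4 ^ i) := by
  filter_upwards [eventually_ge_atTop 2] with i hi
  have h1 : (2 ^ i).factorial ≤ (2 ^ i) ^ (2 ^ i) := Nat.factorial_le_pow _
  have h2 : 2 * i ≤ 2 ^ i := by
    induction i, hi using Nat.le_induction with
    | base => norm_num
    | succ i hi ih => rw [pow_succ]; have := ih (Nat.factorial_le_pow _); omega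
  calc (2 ^ i).factorial ^ 2 ≤ ((2 ^ i) ^ (2 ^ i)) ^ 2 := Nat.pow_le_pow_left h1 2
    _ = 2 ^ (2 * i * 2 ^ i) := by rw [← pow_mul, ← pow_mul]; congr 1; ring
    _ ≤ 2 ^ (2 ^ i * 2 ^ i) := Nat.pow_le_pow_right (by norm_num) (Nat.mul_le_mul_right _ h2)
    _ = 2 ^ (4 ^ i) := by rw [← mul_pow]; norm_num

lemma pow_growth (q : ℕ) : ∀ᶠ i : ℕ in atTop, (q ^ (2 ^ i)) ^ 2 ≤ 2 ^ (4 ^ i) := by
  filter_upwards [eventually_ge_atTop (q + 1)] with i hi
  have h1 : q ≤ 2 ^ q := Nat.lt_two_pow_self.le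
  have h2 : 2 * q ≤ 2 ^ i := by
    have h3 : q + 1 ≤ 2 ^ q := Nat.lt_two_pow_self
    calc 2 * q ≤ 2 * 2 ^ q := by omega
      _ = 2 ^ (q + 1) := by ring
      _ ≤ 2 ^ i := Nat.pow_le_pow_right (by norm_num) hi
  calc (q ^ (2 ^ i)) ^ 2 ≤ ((2 ^ q) ^ (2 ^ i)) ^ 2 := Nat.pow_le_pow_left (Nat.pow_le_pow_left h1 _) 2
    _ = 2 ^ (2 * q * 2 ^ i) := by rw [← pow_mul, ← pow_mul]; congr 1; ring
    _ ≤ 2 ^ (2 ^ i * 2 ^ i) := Nat.pow_le_pow_right (by norm_num) (Nat.mul_le_mul_right _ h2)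
    _ = 2 ^ (4 ^ i) := by rw [← mul_pow]; norm_num

end H41.Rand
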