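import Pool.Agent.H41.Rand.Blocks

/-! # Digits after sparse changes -/

set_option autoImplicit false

open Finset Filter Topology MeasureTheory ProbabilityTheory

namespace H41.Rand

open H41.SW

lemma floor_step (q : ℕ) (hq : 0 < q) (x : ℝ) (n : ℕ) :
    ⌊x * (q : ℝ) ^ (n + 1)⌋ = q * ⌊x * (q : ℝ) ^ n⌋ + ⌊x * (q : ℝ) ^ (n + 1)⌋ % (q : ℤ) := by
  have hqr : (q : ℝ) ≠ 0 := by exact_mod_cast hq.ne'
  have h1 : ⌊x * (q : ℝ) ^ (n + 1)⌋ / (q : ℤ) = ⌊x * (q : ℝ) ^ n⌋ := by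
    have := Int.floor_div_natCast (x * (q : ℝ) ^ (n + 1)) q
    rw [pow_succ, ← mul_assoc, mul_div_cancel_right₀ _ hqr] at this
    rw [pow_succ, ← mul_assoc]
    exact this.symm
  have h2 := Int.emod_add_mul_ediv ⌊x * (q : ℝ) ^ (n + 1)⌋ (q : ℤ)
  rw [h1] at h2
  linarith

theorem digits_agree (q : ℕ) (hq : 2 ≤ q) (x : ℝ) (u : ℕ → ℤ) (hu : ∀ n, |u n| ≤ 1)
    (hu0 : u 0 = 0)
    (hd : ∀ n, 0 ≤ ⌊x * (q : ℝ) ^ (n + 1)⌋ % (q : ℤ) + u (n + 1) ∧
      ⌊x * (q : ℝ) ^ (n + 1)⌋ % (q : ℤ) + u (n + 1) ≤ q - 1) (y : ℝ)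
    (hy : y = x + ∑' n, (u n : ℝ) / (q : ℝ) ^ n) (hirr : ∀ n : ℕ, ∀ m : ℤ, y * (q : ℝ) ^ n ≠ m) :
    ∀ n, u (n + 1) = 0 → ⌊y * (q : ℝ) ^ (n + 1)⌋ % (q : ℤ) = ⌊x * (q : ℝ) ^ (n + 1)⌋ % (q : ℤ) := by
  have hq0 : (0 : ℝ) < q := by exact_mod_cast (by omega : 0 < q)
  have hq2 : (2 : ℝ) ≤ q := by exact_mod_cast hq
  obtain ⟨V, hV⟩ : ∃ V : ℕ → ℤ, V = fun n => ⌊x * (q : ℝ) ^ n⌋ +
      ∑ j ∈ range (n + 1), u j * (q : ℤ) ^ (n - j) := ⟨_, rfl⟩
  obtain ⟨δ, hδ⟩ : ∃ δ : ℕ → ℤ, δ = fun n => ⌊x * (q : ℝ) ^ (n + 1)⌋ % (q : ℤ) + u (n + 1) := ⟨_, rfl⟩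
  have hVs : ∀ n, V (n + 1) = q * V n + δ n := by
    intro n
    rw [hV, hδ]
    simp only
    rw [sum_range_succ _ (n + 1), Nat.sub_self, pow_zero, mul_one, floor_step q (by omega) x n]
    have h1 : ∑ j ∈ range (n + 1), u j * (q : ℤ) ^ (n + 1 - j) =
        q * ∑ j ∈ range (n + 1), u j * (q : ℤ) ^ (n - j) := by
      rw [mul_sum]
      refine sum_congr rfl fun j hj => ?_
      rw [mem_range] at hj
      have : n + 1 - j = (n - j) + 1 := by omega
      rw [this, pow_succ]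
      ring
    rw [h1]
    have h2 := floor_step q (by omega) x n
    have h3 : (q * ⌊x * (q : ℝ) ^ n⌋ + ⌊x * (q : ℝ) ^ (n + 1)⌋ % (q : ℤ)) % (q : ℤ) =
        ⌊x * (q : ℝ) ^ (n + 1)⌋ % (q : ℤ) := by rw [← h2]
    rw [h3]
    ring
  -- the remainder
  obtain ⟨R, hR⟩ : ∃ R : ℕ → ℝ, R = fun n => y * (q : ℝ) ^ n - V n := ⟨_, rfl⟩
  have hRs : ∀ n, R n = (R (n + 1) + δ n) / q := by
    intro n
    rw [hR]
    simp only
    rw [hVs n, pow_succ, eq_div_iff hq0.ne']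
    push_cast
    ring
  have hsum : Summable fun n => (u n : ℝ) / (q : ℝ) ^ n := by
    have h1 : Summable fun n : ℕ => (1 / (q : ℝ)) ^ n :=
      summable_geometric_of_lt_one (by positivity) (by rw [div_lt_one hq0]; linarith)
    refine Summable.of_norm_bounded h1 fun n => ?_
    rw [norm_div, norm_pow, Real.norm_of_nonneg hq0.le, one_div, inv_pow, div_eq_mul_inv]
    have h2 : ‖(u n : ℝ)‖ ≤ 1 := by
      rw [Real.norm_eq_abs]
      exact_mod_cast hu n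
    have h3 : (0 : ℝ) ≤ ((q : ℝ) ^ n)⁻¹ := by positivity
    nlinarith
  have hRb : ∀ n, |R n| ≤ 2 := by
    intro n
    have h1 := hsum.sum_add_tsum_nat_add (n + 1)
    have h2 : R n = (x * (q : ℝ) ^ n - ⌊x * (q : ℝ) ^ n⌋) +
        (q : ℝ) ^ n * ∑' i, (u (i + (n + 1)) : ℝ) / (q : ℝ) ^ (i + (n + 1)) := by
      rw [hR, hV, hy]
      simp only
      rw [← h1]
      push_cast
      have h3 : (∑ j ∈ range (n + 1), (u j : ℝ) / (q : ℝ) ^ j) * (q : ℝ) ^ n =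
          ∑ j ∈ range (n + 1), (u j : ℝ) * (q : ℝ) ^ (n - j) := by
        rw [sum_mul]
        refine sum_congr rfl fun j hj => ?_
        rw [mem_range] at hj
        have h4 : (q : ℝ) ^ n = (q : ℝ) ^ j * (q : ℝ) ^ (n - j) := by
          rw [← pow_add]
          congr 1
          omega
        rw [h4]
        field_simp
      linear_combination h3
    have h3 : |(q : ℝ) ^ n * ∑' i, (u (i + (n + 1)) : ℝ) / (q : ℝ) ^ (i + (n + 1))| ≤ 1 := by
      rw [← tsum_mul_left]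
      have h4 : HasSum (fun i : ℕ => (1 / (q : ℝ)) ^ i * (1 / q)) ((1 - 1 / (q : ℝ))⁻¹ * (1 / q)) :=
        (hasSum_geometric_of_lt_one (by positivity) (by rw [div_lt_one hq0]; linarith)).mul_right _
      have h5 : (1 - 1 / (q : ℝ))⁻¹ * (1 / q) ≤ 1 := by
        have h6 : (1 - 1 / (q : ℝ))⁻¹ * (1 / q) = 1 / (q - 1) := by
          have : (q : ℝ) - 1 ≠ 0 := by linarith
          field_simp
        rw [h6, div_le_one (by linarith)]
        linarith
      refine le_trans ?_ h5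
      rw [← Real.norm_eq_abs]
      refine tsum_of_norm_bounded h4 fun i => ?_
      rw [norm_mul, norm_div, norm_pow, norm_pow, Real.norm_of_nonneg hq0.le]
      have h6 : ‖(u (i + (n + 1)) : ℝ)‖ ≤ 1 := by
        rw [Real.norm_eq_abs]
        exact_mod_cast hu _
      have h7 : (1 / (q : ℝ)) ^ i * (1 / q) = (q : ℝ) ^ n * (1 / (q : ℝ) ^ (i + (n + 1))) := by
        rw [pow_add, pow_succ, one_div_pow]
        field_simp
      rw [h7]
      gcongr
    have h4 := Int.floor_le (x * (q : ℝ) ^ n)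
    have h5 := Int.lt_floor_add_one (x * (q : ℝ) ^ n)
    rw [h2]
    refine (abs_add_le _ _).trans ?_
    have h6 : |x * (q : ℝ) ^ n - ⌊x * (q : ℝ) ^ n⌋| ≤ 1 := by
      rw [abs_le]
      constructor <;> linarith
    linarith
  have hδ1 : ∀ n, (0 : ℝ) ≤ δ n ∧ (δ n : ℝ) ≤ q - 1 := by
    intro n
    have := hd n
    rw [hδ]
    exact ⟨by exact_mod_cast this.1, by exact_mod_cast this.2⟩
  have hlow : ∀ k n, -(2 / (q : ℝ) ^ k) ≤ R n := by
    intro k
    induction k with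
    | zero => intro n; rw [pow_zero, div_one]; exact (abs_le.1 (hRb n)).1
    | succ k ih =>
      intro n
      rw [hRs n, le_div_iff₀ hq0, pow_succ]
      have h1 := ih (n + 1)
      have h2 := (hδ1 n).1
      have h3 : -(2 / ((q : ℝ) ^ k * q)) * q = -(2 / (q : ℝ) ^ k) := by field_simp
      rw [h3]
      linarith
  have hup : ∀ k n, R n ≤ 1 + 2 / (q : ℝ) ^ k := by
    intro k
    induction k with
    | zero => intro n; rw [pow_zero, div_one]; have := (abs_le.1 (hRb n)).2; linarith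
    | succ k ih =>
      intro n
      rw [hRs n, div_le_iff₀ hq0, pow_succ]
      have h1 := ih (n + 1)
      have h2 := (hδ1 n).2
      have h3 : (1 + 2 / ((q : ℝ) ^ k * q)) * q = q + 2 / (q : ℝ) ^ k := by field_simp
      rw [h3]
      linarith
  have hlim : Tendsto (fun k : ℕ => 2 / (q : ℝ) ^ k) atTop (𝓝 0) :=
    Tendsto.div_atTop tendsto_const_nhds (tendsto_pow_atTop_atTop_of_one_lt (by linarith))
  have hR0 : ∀ n, 0 ≤ R n := fun n => by
    have := ge_of_tendsto' (b := R n) (a := (0 : ℝ)) (x := atTop) (f := fun k : ℕ => R n + 2 / (q : ℝ) ^ k)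
    have h1 : Tendsto (fun k : ℕ => R n + 2 / (q : ℝ) ^ k) atTop (𝓝 (R n + 0)) := hlim.const_add _
    rw [add_zero] at h1
    exact ge_of_tendsto' h1 fun k => by have := hlow k n; linarith
  have hR1 : ∀ n, R n ≤ 1 := fun n => by
    have h1 : Tendsto (fun k : ℕ => 1 + 2 / (q : ℝ) ^ k) atTop (𝓝 (1 + 0)) := hlim.const_add _
    rw [add_zero] at h1
    exact ge_of_tendsto' h1 fun k => hup k n
  have hfl : ∀ n, ⌊y * (q : ℝ) ^ n⌋ = V n := by
    intro n
    rw [Int.floor_eq_iff]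
    have h1 := hR0 n
    have h2 := hR1 n
    rw [hR] at h1 h2
    simp only at h1 h2
    refine ⟨by linarith, lt_of_le_of_ne (by linarith) fun h3 => ?_⟩
    exact hirr n (V n + 1) (by push_cast; linarith)
  intro n hn
  rw [hfl, hVs, hδ]
  simp only
  rw [hn, add_zero, Int.mul_add_emod_self_left, Int.emod_emod_of_dvd _ dvd_rfl]

end H41.Rand
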