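import Pool.Agent.H41.Rand.Diff

/-! # Independent events with probabilities between `κ / n` and `1 - κ / n` -/

set_option autoImplicit false

open Finset Filter Topology MeasureTheory ProbabilityTheory

namespace H41.Rand

open H41.SW

lemma fac (s κ : ℝ) (hs : 0 < s) (hκ : 0 < κ) : ∃ n1 : ℕ, 0 < n1 ∧ ∀ n : ℕ, n1 ≤ n → ∀ u : ℝ,
    κ / n ≤ u → u ≤ 1 - κ / n → u ^ (1 + s) + (1 - u) ^ (1 + s) ≤ 1 - κ / (2 * n) := by
  -- the bound for the smaller one
  obtain ⟨v0, hv0⟩ : ∃ v0 : ℝ, v0 = (1 / 2 : ℝ) ^ (1 / s) := ⟨_, rfl⟩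
  have hv0p : 0 < v0 := by rw [hv0]; positivity
  obtain ⟨w, hw⟩ : ∃ w : ℝ, w = 1 - (1 / 2 : ℝ) ^ s := ⟨_, rfl⟩
  have hw0 : 0 < w := by
    rw [hw]
    have := Real.rpow_lt_one (by norm_num : (0 : ℝ) ≤ 1 / 2) (by norm_num) hs
    linarith
  obtain ⟨n1, hn1⟩ := exists_nat_gt (κ / (2 * (v0 * w)))
  have main : ∀ n : ℕ, n1 + 1 ≤ n → ∀ v : ℝ, κ / n ≤ v → v ≤ 1 / 2 →
      v ^ (1 + s) + (1 - v) ^ (1 + s) ≤ 1 - κ / (2 * n) := by
    intro n hn v hv1 hv2
    have hn0 : (0 : ℝ) < n := by exact_mod_cast (by omega : 0 < n)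
    have hvp : 0 < v := lt_of_lt_of_le (by positivity) hv1
    have h1 : (1 - v) ^ (1 + s) ≤ 1 - v := by
      have := Real.rpow_le_rpow_of_exponent_ge (x := 1 - v) (by linarith) (by linarith)
        (show (1 : ℝ) ≤ 1 + s by linarith)
      rwa [Real.rpow_one] at this
    have h2 : v ^ (1 + s) = v * v ^ s := by rw [Real.rpow_add hvp, Real.rpow_one]
    have h3 : κ / (2 * n) ≤ v * (1 - v ^ s) := by
      have e1 : κ / (2 * n) = (κ / n) / 2 := by field_simp
      rcases le_or_gt (v ^ s) (1 / 2) with h4 | h4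
      · rw [e1]
        nlinarith
      · have h5 : v0 ≤ v := by
          rw [hv0]
          have h6 : (1 / 2 : ℝ) ^ (1 / s) ≤ (v ^ s) ^ (1 / s) :=
            Real.rpow_le_rpow (by norm_num) h4.le (by positivity)
          rwa [← Real.rpow_mul hvp.le, mul_one_div_cancel hs.ne', Real.rpow_one] at h6
        have h6 : w ≤ 1 - v ^ s := by
          rw [hw]
          have := Real.rpow_le_rpow hvp.le hv2 hs.le
          linarith
        have h7 : v0 * w ≤ v * (1 - v ^ s) := mul_le_mul h5 h6 hw0.le hvp.le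
        refine le_trans ?_ h7
        have h8 : (n1 : ℝ) ≤ n := by exact_mod_cast (by omega : n1 ≤ n)
        have h9 : κ / (2 * (v0 * w)) < n := lt_of_lt_of_le hn1 h8
        rw [div_lt_iff₀ (by positivity)] at h9
        rw [div_le_iff₀ (by positivity)]
        nlinarith
    rw [h2]
    linarith
  refine ⟨n1 + 1, by omega, fun n hn u hu1 hu2 => ?_⟩
  rcases le_or_gt u (1 / 2) with h | h
  · exact main n hn u hu1 h
  · have := main n hn (1 - u) (by linarith) (by linarith)
    rw [sub_sub_cancel] at this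
    linarith

lemma sum_inv (a b : ℕ) (ha : 0 < a) (hab : a ≤ b) :
    Real.log b - Real.log a ≤ ∑ m ∈ Ico a b, (1 : ℝ) / m := by
  induction b, hab using Nat.le_induction with
  | base => simp
  | succ b hb ih =>
    rw [sum_Ico_succ_top hb]
    have hb0 : (0 : ℝ) < b := by exact_mod_cast (by omega : 0 < b)
    have h1 : Real.log ((b + 1 : ℕ) : ℝ) - Real.log b ≤ 1 / b := by
      rw [← Real.log_div (by positivity) (by positivity)]
      refine (Real.log_le_sub_one_of_pos (by positivity)).trans (le_of_eq ?_)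
      push_cast
      field_simp
      ring
    linarith

/-- the indices -/
def KK (p n0 i : ℕ) : Finset ℕ := (range (2 ^ i + 1)).filter fun n => p ∣ n ∧ n0 ≤ n

lemma sum_KK (p n0 i : ℕ) (hp : 0 < p) (hn0 : 0 < n0) :
    (i * Real.log 2 - Real.log p - Real.log n0) / p ≤ ∑ n ∈ KK p n0 i, (1 : ℝ) / n := by
  have hpr : (0 : ℝ) < p := by exact_mod_cast hp
  obtain ⟨N, hN⟩ : ∃ N : ℕ, N = 2 ^ i / p + 1 := ⟨_, rfl⟩
  have hN1 : (2 : ℝ) ^ i / p < N := by
    have h1 : 2 ^ i < p * N := by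
      rw [hN]
      exact Nat.lt_mul_div_succ _ hp
    rw [div_lt_iff₀ hpr, mul_comm]
    exact_mod_cast h1
  have hlog : i * Real.log 2 - Real.log p ≤ Real.log N := by
    rw [← Real.log_pow, ← Real.log_div (by positivity) (by positivity)]
    exact Real.log_le_log (by positivity) hN1.le
  have h1 : (i * Real.log 2 - Real.log p - Real.log n0) ≤ ∑ m ∈ Ico n0 N, (1 : ℝ) / m := by
    rcases le_or_gt n0 N with h | h
    · have := sum_inv n0 N hn0 h
      linarith
    · have h2 : Real.log N ≤ Real.log n0 := Real.log_le_log (by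
        rw [hN]; push_cast; positivity) (by exact_mod_cast h.le)
      have h3 : 0 ≤ ∑ m ∈ Ico n0 N, (1 : ℝ) / m := sum_nonneg fun _ _ => by positivity
      linarith
  have h2 : (∑ m ∈ Ico n0 N, (1 : ℝ) / m) / p = ∑ n ∈ (Ico n0 N).image (p * ·), (1 : ℝ) / n := by
    rw [sum_image (fun a _ b _ hab => Nat.eq_of_mul_eq_mul_left hp hab), sum_div]
    refine sum_congr rfl fun m _ => ?_
    push_cast
    rw [div_div, mul_comm]
  calc (i * Real.log 2 - Real.log p - Real.log n0) / p ≤ (∑ m ∈ Ico n0 N, (1 : ℝ) / m) / p := by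
        gcongr
    _ = ∑ n ∈ (Ico n0 N).image (p * ·), (1 : ℝ) / n := h2
    _ ≤ ∑ n ∈ KK p n0 i, (1 : ℝ) / n := by
        refine sum_le_sum_of_subset_of_nonneg ?_ fun _ _ _ => by positivity
        intro n hn
        obtain ⟨m, hm, rfl⟩ := mem_image.1 hn
        rw [mem_Ico] at hm
        unfold KK
        rw [mem_filter, mem_range]
        refine ⟨?_, dvd_mul_right _ _, hm.1.trans (Nat.le_mul_of_pos_left m hp)⟩
        have h3 : m ≤ 2 ^ i / p := by omega
        have h4 := (Nat.le_div_iff_mul_le hp).1 h3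
        rw [mul_comm]
        omega

end H41.Rand
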