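import Pool.Agent.H41.Rand.Ev

/-! # Independent events: the exponential sums -/

set_option autoImplicit false

open Finset Filter Topology MeasureTheory ProbabilityTheory

namespace H41.Rand

open H41.SW

variable {Ω : Type*} [MeasurableSpace Ω] (μ : Measure Ω) [IsProbabilityMeasure μ]

lemma prob_conf (ξ : ℕ → Ω → ℕ) (hind : iIndepFun ξ μ)
    (K : Finset ℕ) (φ : K → ℕ) :
    μ.real {ω | conf ξ K ω = φ} = ∏ k : K, μ.real {ω | ξ k ω = φ k} := by
  classical
  obtain ⟨sets, hsets⟩ : ∃ sets : ℕ → Set ℕ, sets = fun n => if h : n ∈ K then {φ ⟨n, h⟩} else Set.univ :=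
    ⟨_, rfl⟩
  have h1 := hind.measure_inter_preimage_eq_mul K (sets := sets) (fun i _ => MeasurableSet.of_discrete)
  have h2 : {ω | conf ξ K ω = φ} = ⋂ i ∈ K, ξ i ⁻¹' sets i := by
    ext ω
    simp only [Set.mem_iInter, Set.mem_preimage]
    constructor
    · intro h i hi
      rw [hsets]
      simp only [dif_pos hi, Set.mem_singleton_iff]
      exact congrFun h ⟨i, hi⟩
    · intro h
      show conf ξ K ω = φ
      funext k
      have h3 := h k k.2
      rw [hsets] at h3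
      simp only [dif_pos k.2, Set.mem_singleton_iff] at h3
      exact h3
  have h3 : ∏ i ∈ K, μ (ξ i ⁻¹' sets i) = ∏ k : K, μ {ω | ξ k ω = φ k} := by
    rw [← prod_coe_sort K (fun i => μ (ξ i ⁻¹' sets i))]
    refine prod_congr rfl fun k _ => ?_
    congr 1
    ext ω
    rw [hsets]
    simp
  unfold Measure.real
  rw [h2, h1, h3, ENNReal.toReal_prod]

/-- the value of an event -/
noncomputable def fE (σ : ℕ → ℤ) (n v : ℕ) : ℝ := if v = 0 then 0 else (σ n : ℝ) / (n.factorial : ℝ)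

lemma fE_le (σ : ℕ → ℤ) (hσ : ∀ n, σ n = 1 ∨ σ n = -1) (n v : ℕ) :
    |fE σ n v| ≤ 1 / (n.factorial : ℝ) := by
  unfold fE
  split_ifs
  · rw [abs_zero]; positivity
  · have h1 : |(σ n : ℝ)| = 1 := by
      rcases hσ n with h1 | h1 <;> rw [h1] <;> simp
    rw [abs_div, h1, abs_of_nonneg (by positivity)]

lemma summ_fact : Summable fun n : ℕ => 1 / (n.factorial : ℝ) := by
  have := Real.summable_pow_div_factorial 1
  simpa using this

lemma fE_low (σ : ℕ → ℤ) (p m n : ℕ) (hp : 0 < p) (hm : 0 < m) (hnm : n < m) (hpm : p ∣ m) (v : ℕ) :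
    Low Nat.factorial p m (fE σ n v) := by
  unfold fE
  split_ifs
  · exact low_zero _ _ _
  · exact low_of_dvd Nat.factorial p m n (σ n) (Nat.factorial_ne_zero _) (Nat.factorial_ne_zero _)
      hp.ne' (fact_dvd p n m hm hnm hpm)

theorem events_sum (A : ℕ → Set Ω) (hA : ∀ n, MeasurableSet (A n)) (hind : iIndepSet A μ)
    (κ : ℝ) (hκ : 0 < κ)
    (hκA : ∀ᶠ n : ℕ in atTop, κ / n ≤ μ.real (A n) ∧ μ.real (A n) ≤ 1 - κ / n)
    (σ : ℕ → ℤ) (hσ : ∀ n, σ n = 1 ∨ σ n = -1)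
    (x : ℝ) (b : ℕ) (hb : 2 ≤ b) (h : ℤ) (hh : h ≠ 0) :
    ∀ᵐ ω ∂μ, Tendsto (avg (ex b
      (x + ∑' n, fE σ n ((A n).indicator (fun _ => 1) ω)) h)) atTop (𝓝 0) := by
  classical
  obtain ⟨p, hpb1, hp⟩ := Nat.exists_infinite_primes (b + 1)
  have hpb : ¬ p ∣ b := fun h => by
    have := Nat.le_of_dvd (by omega) h
    omega
  obtain ⟨d, c, hd, hc, hlte⟩ := lte p b hp hb hpb
  obtain ⟨ξ, hξ⟩ : ∃ ξ : ℕ → Ω → ℕ, ξ = fun n => (A n).indicator (fun _ => 1) := ⟨_, rfl⟩
  have hξi : iIndepFun ξ μ := by rw [hξ]; exact hind.iIndepFun_indicator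
  have hξm : ∀ k, Measurable (ξ k) := fun k => by
    rw [hξ]
    exact measurable_const.indicator (hA k)
  have hξ1 : ∀ n, μ.real {ω | ξ n ω = 1} = μ.real (A n) := by
    intro n
    congr 1
    ext ω
    rw [hξ]
    by_cases h1 : ω ∈ A n <;> simp [h1]
  have hξ0 : ∀ n, μ.real {ω | ξ n ω = 0} = 1 - μ.real (A n) := by
    intro n
    rw [← probReal_compl_eq_one_sub (hA n)]
    congr 1
    ext ω
    rw [hξ]
    by_cases h1 : ω ∈ A n <;> simp [h1]
  -- the parameters
  obtain ⟨s, hs⟩ : ∃ s : ℝ, s = κ / (16 * p) := ⟨_, rfl⟩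
  have hpr : (0 : ℝ) < p := by exact_mod_cast hp.pos
  have hs0 : 0 < s := by rw [hs]; positivity
  obtain ⟨n1, hn1, hfac⟩ := fac s κ hs0 hκ
  obtain ⟨n2, hn2⟩ := eventually_atTop.1 hκA
  obtain ⟨n3, hn3⟩ := cond_fact p c (padicValNat p h.natAbs) hp
  obtain ⟨n0, hn0⟩ : ∃ n0 : ℕ, n0 = n1 + n2 + n3 := ⟨_, rfl⟩
  obtain ⟨Φ0, hΦ0⟩ : ∃ Φ0 : (i : ℕ) → Finset (KK p n0 i → ℕ),
      Φ0 = fun i => Fintype.piFinset fun _ => ({0, 1} : Finset ℕ) := ⟨_, rfl⟩
  obtain ⟨Φ, hΦ⟩ : ∃ Φ : (i : ℕ) → Finset (KK p n0 i → ℕ),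
      Φ = fun i => (Φ0 i).filter fun φ => μ.real {ω | conf ξ (KK p n0 i) ω = φ} ≤ 1 / 16 ^ i :=
    ⟨_, rfl⟩
  have hconf : ∀ i ω, conf ξ (KK p n0 i) ω ∈ Φ0 i := by
    intro i ω
    rw [hΦ0]
    simp only [Fintype.mem_piFinset]
    intro k
    unfold conf
    rw [hξ]
    by_cases h1 : ω ∈ A k <;> simp [h1]
  -- the bad configurations
  have hbad : ∀ i, μ.real {ω | conf ξ (KK p n0 i) ω ∉ Φ i} ≤
      (16 ^ i : ℝ) ^ s * Real.exp (-(κ / 2 * ((i * Real.log 2 - Real.log p - Real.log n0) / p))) := by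
    intro i
    have e1 : {ω | conf ξ (KK p n0 i) ω ∉ Φ i} = ⋃ φ ∈ (Φ0 i).filter
        fun φ => ¬ μ.real {ω | conf ξ (KK p n0 i) ω = φ} ≤ 1 / 16 ^ i,
        {ω | conf ξ (KK p n0 i) ω = φ} := by
      ext ω
      simp only [Set.mem_iUnion, Set.mem_ofPred_eq, exists_prop, mem_filter]
      constructor
      · intro h1
        refine ⟨_, ⟨hconf i ω, fun h2 => h1 ?_⟩, rfl⟩
        rw [hΦ, mem_filter]
        exact ⟨hconf i ω, h2⟩
      · rintro ⟨φ, ⟨h1, h2⟩, h3⟩ h4
        rw [hΦ, mem_filter, h3] at h4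
        exact h2 h4.2
    rw [e1]
    refine (measureReal_biUnion_finset_le _ _).trans ?_
    have h16 : (0 : ℝ) < 16 ^ i := by positivity
    calc ∑ φ ∈ (Φ0 i).filter fun φ => ¬ μ.real {ω | conf ξ (KK p n0 i) ω = φ} ≤ 1 / 16 ^ i,
          μ.real {ω | conf ξ (KK p n0 i) ω = φ}
        ≤ ∑ φ ∈ (Φ0 i).filter fun φ => ¬ μ.real {ω | conf ξ (KK p n0 i) ω = φ} ≤ 1 / 16 ^ i,
          (16 ^ i : ℝ) ^ s * μ.real {ω | conf ξ (KK p n0 i) ω = φ} ^ (1 + s) := by
          refine sum_le_sum fun φ hφ => ?_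
          have h1 := (mem_filter.1 hφ).2
          rw [not_le] at h1
          obtain ⟨P, hP⟩ : ∃ P : ℝ, P = μ.real {ω | conf ξ (KK p n0 i) ω = φ} := ⟨_, rfl⟩
          rw [← hP] at h1 ⊢
          have hP0 : 0 < P := lt_trans (by positivity) h1
          have h2 : 1 ≤ (16 ^ i : ℝ) ^ s * P ^ s := by
            rw [← Real.mul_rpow h16.le hP0.le]
            refine Real.one_le_rpow ?_ hs0.le
            rw [div_lt_iff₀ h16] at h1
            linarith
          rw [Real.rpow_add hP0, Real.rpow_one]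
          nlinarith
      _ ≤ ∑ φ ∈ Φ0 i, (16 ^ i : ℝ) ^ s * μ.real {ω | conf ξ (KK p n0 i) ω = φ} ^ (1 + s) :=
          sum_le_sum_of_subset_of_nonneg (filter_subset _ _) fun _ _ _ => by positivity
      _ = (16 ^ i : ℝ) ^ s * ∏ k : KK p n0 i, ∑ v ∈ ({0, 1} : Finset ℕ),
            μ.real {ω | ξ k ω = v} ^ (1 + s) := by
          rw [← mul_sum]
          congr 1
          rw [prod_univ_sum, hΦ0]
          refine sum_congr rfl fun φ _ => ?_
          rw [prob_conf μ ξ hξi, ← Real.finsetProd_rpow _ _ fun _ _ => measureReal_nonneg]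
      _ ≤ (16 ^ i : ℝ) ^ s * ∏ k : KK p n0 i, Real.exp (-(κ / 2 * (1 / ((k : ℕ) : ℝ)))) := by
          refine mul_le_mul_of_nonneg_left ?_ (by positivity)
          refine prod_le_prod (fun _ _ => by positivity) fun k _ => ?_
          have hk := (mem_filter.1 k.2).2.2
          have hk' : n1 + n2 + n3 ≤ (k : ℕ) := by rw [← hn0]; exact hk
          obtain ⟨g1, g2⟩ := hn2 k (by omega)
          have g3 := hfac k (by omega) _ g1 g2
          rw [sum_pair (by norm_num), hξ0, hξ1, add_comm]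
          refine g3.trans ?_
          have g4 := Real.add_one_le_exp (-(κ / 2 * (1 / ((k : ℕ) : ℝ))))
          refine le_trans (le_of_eq ?_) g4
          rw [mul_one_div, div_div]
          ring
      _ = (16 ^ i : ℝ) ^ s * Real.exp (-(κ / 2 * ∑ n ∈ KK p n0 i, (1 : ℝ) / n)) := by
          rw [← Real.exp_sum, sum_neg_distrib, ← mul_sum,
            sum_coe_sort (KK p n0 i) (fun n : ℕ => (1 : ℝ) / n)]
      _ ≤ _ := by
          have h1 := sum_KK p n0 i hp.pos (by omega)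
          gcongr
  obtain ⟨C1, hC1⟩ : ∃ C1 : ℝ, C1 = Real.exp (κ / 2 * ((Real.log p + Real.log n0) / p)) := ⟨_, rfl⟩
  obtain ⟨r, hr⟩ : ∃ r : ℝ, r = Real.exp (-(κ * Real.log 2 / (4 * p))) := ⟨_, rfl⟩
  have hlog2 : 0 < Real.log 2 := Real.log_pos (by norm_num)
  have hr1 : r < 1 := by
    rw [hr, Real.exp_lt_one_iff]
    have : 0 < κ * Real.log 2 / (4 * p) := by positivity
    linarith
  have hr0 : 0 < r := by rw [hr]; positivity
  have hbad2 : ∀ i, μ.real {ω | conf ξ (KK p n0 i) ω ∉ Φ i} ≤ C1 * r ^ i := by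
    intro i
    refine (hbad i).trans (le_of_eq ?_)
    have e1 : (16 ^ i : ℝ) ^ s = Real.exp (i * (4 * Real.log 2) * s) := by
      rw [Real.rpow_def_of_pos (by positivity), Real.log_pow]
      congr 2
      have : (16 : ℝ) = 2 ^ 4 := by norm_num
      rw [this, Real.log_pow]
      norm_num
    rw [e1, hC1, hr, ← Real.exp_nat_mul, ← Real.exp_add, ← Real.exp_add, hs]
    congr 1
    field_simp
    ring
  have hev : ∀ᵐ ω ∂μ, ∀ᶠ i in atTop, conf ξ (KK p n0 i) ω ∈ Φ i := by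
    have h1 : ∑' i, μ {ω | conf ξ (KK p n0 i) ω ∉ Φ i} ≠ ⊤ := by
      refine ne_top_of_le_ne_top (b := ∑' i : ℕ, ENNReal.ofReal (C1 * r ^ i)) ?_ ?_
      · rw [← ENNReal.ofReal_tsum_of_nonneg (fun i => by rw [hC1]; positivity)
          ((summable_geometric_of_lt_one hr0.le hr1).mul_left C1)]
        exact ENNReal.ofReal_ne_top
      · refine ENNReal.tsum_le_tsum fun i => ?_
        rw [← ofReal_measureReal]
        exact ENNReal.ofReal_le_ofReal (hbad2 i)
    filter_upwards [ae_eventually_notMem h1] with ω hω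
    filter_upwards [hω] with i hi
    by_contra hcon
    exact hi hcon
  have := core μ ξ hξm hξi (fE σ) (fun n => 1 / (n.factorial : ℝ)) summ_fact (fE_le σ hσ) x p b d c hp hb hpb
    hd hc hlte h hh Nat.factorial (fun m n hmn => Nat.factorial_le hmn) fact_growth
    (fun i => KK p n0 i) Φ 1 zero_le_one
    (fun i φ hφ => by
      rw [hΦ, mem_filter] at hφ
      exact hφ.2)
    (fun i φ hφ φ' hφ' hne => by
      refine diff_general _ φ φ' hne (fE σ) Nat.factorial p (2 ^ i) c _ fun k hk => ?_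
      have hk2 := mem_filter.1 k.2
      rw [mem_range] at hk2
      have hk0 : 0 < (k : ℕ) := by omega
      refine ⟨k, by omega, hn3 k (by omega) hk2.2.1, ?_, fun k' hk' => ?_⟩
      · rw [hΦ, mem_filter, hΦ0] at hφ hφ'
        have g1 := Fintype.mem_piFinset.1 hφ.1 k
        have g2 := Fintype.mem_piFinset.1 hφ'.1 k
        rw [mem_insert, mem_singleton] at g1 g2
        have hp1 : ¬ (p : ℤ) ∣ 1 := by
          intro h1
          have := Int.natCast_dvd_natCast.1 (by exact_mod_cast h1 : ((p : ℕ) : ℤ) ∣ ((1 : ℕ) : ℤ))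
          exact hp.one_lt.ne' (Nat.dvd_one.1 this)
        have hpσ : ∀ n, ¬ (p : ℤ) ∣ σ n := by
          intro n
          rcases hσ n with h1 | h1 <;> rw [h1]
          · exact hp1
          · exact fun h2 => hp1 ((dvd_neg).1 h2)
        rcases g1 with g1 | g1 <;> rcases g2 with g2 | g2
        · exact absurd (g1.trans g2.symm) hk
        · refine ⟨-σ k, fun h1 => hpσ _ ((dvd_neg).1 h1), ?_⟩
          rw [g1, g2]
          have : fE σ (k : ℕ) 0 - fE σ (k : ℕ) 1 - ((-σ k : ℤ) : ℝ) / ((k : ℕ).factorial : ℝ) = 0 := by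
            unfold fE
            simp
            ring
          rw [this]
          exact low_zero _ _ _
        · refine ⟨σ k, hpσ _, ?_⟩
          rw [g1, g2]
          have : fE σ (k : ℕ) 1 - fE σ (k : ℕ) 0 - (σ k : ℝ) / ((k : ℕ).factorial : ℝ) = 0 := by
            unfold fE
            simp
          rw [this]
          exact low_zero _ _ _
        · exact absurd (g1.trans g2.symm) hk
      · have hlt : (k' : ℕ) < (k : ℕ) := hk'
        exact ⟨fE_low σ p k k' hp.pos hk0 hlt hk2.2.1 _, fE_low σ p k k' hp.pos hk0 hlt hk2.2.1 _⟩)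
    hev
  filter_upwards [this] with ω hω
  have e1 : XX ξ (fE σ) x ω = x + ∑' n, fE σ n ((A n).indicator (fun _ => 1) ω) := by
    unfold XX
    rw [hξ]
  rw [e1] at hω
  exact hω

end H41.Rand
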