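import Pool.Agent.H41.Rand.Digits

/-! # Existence of the sparse sets -/

set_option autoImplicit false

open Finset Filter Topology MeasureTheory ProbabilityTheory

namespace H41.Rand

open H41.SW

lemma exists_xi : ∃ (Ω : Type) (_ : MeasurableSpace Ω) (P : Measure Ω) (_ : IsProbabilityMeasure P)
    (ξ : ℕ → Ω → ℕ), (∀ k, Measurable (ξ k)) ∧ iIndepFun ξ P ∧ (∀ k ω, ξ k ω < Y k) ∧
      ∀ k, ∀ v < Y k, P.real {ω | ξ k ω = v} = 1 / Y k := by
  have hne : ∀ k, Nonempty (Fin (Y k)) := fun k => ⟨⟨0, Y_pos k⟩⟩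
  obtain ⟨Ω, mΩ, P, X, h1, h2, h3, h4⟩ := exists_hasLaw_indepFun (ι := ℕ) (fun k => Fin (Y k))
    (fun k => (PMF.uniformOfFintype (Fin (Y k))).toMeasure)
  refine ⟨Ω, mΩ, P, h4, fun k ω => (X k ω : ℕ), fun k => ?_, ?_, fun k ω => (X k ω).2, ?_⟩
  · exact (measurable_of_countable (fun i : Fin (Y k) => (i : ℕ))).comp (h1 k)
  · exact h3.comp (fun k => fun i : Fin (Y k) => (i : ℕ)) fun k => measurable_of_countable _
  · intro k v hv
    have h5 : {ω | (X k ω : ℕ) = v} = X k ⁻¹' {⟨v, hv⟩} := by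
      ext ω
      simp [Fin.ext_iff]
    have h6 : P {ω | (X k ω : ℕ) = v} = (Y k : ENNReal)⁻¹ := by
      rw [h5, ← Measure.map_apply (h1 k) (measurableSet_singleton _), (h2 k).map_eq,
        PMF.toMeasure_apply_singleton _ _ (measurableSet_singleton _), PMF.uniformOfFintype_apply,
        Fintype.card_fin]
    rw [Measure.real, h6, ENNReal.toReal_inv, ENNReal.toReal_natCast, one_div]

lemma count_nu (ξ : ℕ → ℕ) (N : ℕ) :
    (Set.range (fun k => nu k (ξ k)) ∩ Set.Icc 1 N).ncard ≤ 9 * (Nat.log 2 (Nat.log 2 N) + 1) := by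
  have h1 : Set.range (fun k => nu k (ξ k)) ∩ Set.Icc 1 N ⊆
      (((range (9 * (Nat.log 2 (Nat.log 2 N) + 1))).image fun k => nu k (ξ k) : Finset ℕ) : Set ℕ) := by
    rintro n ⟨⟨k, rfl⟩, h2, h3⟩
    rw [coe_image, Set.mem_image]
    refine ⟨k, ?_, rfl⟩
    rw [mem_coe, mem_range]
    have h4 : Y k ≤ N := (nu_Y k (ξ k)).le.trans h3
    unfold Y at h4
    have hN : N ≠ 0 := by
      have : 0 < 2 ^ (2 ^ (k / 9)) := by positivity
      omega
    have h5 : 2 ^ (k / 9) ≤ Nat.log 2 N := (Nat.le_log_iff_pow_le (by norm_num) hN).2 h4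
    have h6 : k / 9 ≤ Nat.log 2 (Nat.log 2 N) := (Nat.le_log_iff_pow_le (by norm_num) (by
      have : 0 < 2 ^ (k / 9) := by positivity
      omega)).2 h5
    omega
  refine (Set.ncard_le_ncard h1 (Finset.finite_toSet _)).trans ?_
  rw [Set.ncard_coe_finset]
  exact card_image_le.trans (by rw [card_range])

lemma loglog_bound : ∃ C : ℝ, 0 < C ∧ ∀ N : ℕ, 3 ≤ N →
    (9 * (Nat.log 2 (Nat.log 2 N) + 1) : ℕ) ≤ C * Real.log (Real.log N) := by
  have he : Real.exp 1 < 3 := Real.exp_one_lt_d9.trans (by norm_num)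
  have h3 : 1 < Real.log 3 := by
    rw [Real.lt_log_iff_exp_lt (by norm_num)]
    exact he
  obtain ⟨t0, ht0⟩ : ∃ t0 : ℝ, t0 = Real.log (Real.log 3) := ⟨_, rfl⟩
  have ht0p : 0 < t0 := by rw [ht0]; exact Real.log_pos h3
  have hl2 : 0 < Real.log 2 := Real.log_pos (by norm_num)
  obtain ⟨a, ha⟩ : ∃ a : ℝ, a = 1 + |Real.log (Real.log 2)| / Real.log 2 := ⟨_, rfl⟩
  have ha0 : 0 < a := by rw [ha]; positivity
  refine ⟨9 * (a / t0 + 1 / Real.log 2), by positivity, fun N hN => ?_⟩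
  have hN3 : (3 : ℝ) ≤ N := by exact_mod_cast hN
  have hlN : Real.log 3 ≤ Real.log N := Real.log_le_log (by norm_num) hN3
  have ht : t0 ≤ Real.log (Real.log N) := by
    rw [ht0]
    exact Real.log_le_log (by linarith) hlN
  have h5 : 0 < Nat.log 2 N := Nat.log_pos (by norm_num) (by omega)
  have h6 : ((Nat.log 2 N : ℕ) : ℝ) ≤ Real.log N / Real.log 2 := Real.natLog_le_logb N 2
  have h7 : ((Nat.log 2 (Nat.log 2 N) : ℕ) : ℝ) ≤ Real.log (Nat.log 2 N : ℕ) / Real.log 2 :=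
    Real.natLog_le_logb _ 2
  have h8 : Real.log ((Nat.log 2 N : ℕ) : ℝ) ≤ Real.log (Real.log N) - Real.log (Real.log 2) := by
    rw [← Real.log_div (by linarith) hl2.ne']
    exact Real.log_le_log (by exact_mod_cast h5) h6
  have h9 : ((Nat.log 2 (Nat.log 2 N) : ℕ) : ℝ) + 1 ≤ a + Real.log (Real.log N) / Real.log 2 := by
    rw [ha]
    have h10 : -Real.log (Real.log 2) ≤ |Real.log (Real.log 2)| := neg_le_abs _
    have h11 : Real.log ((Nat.log 2 N : ℕ) : ℝ) / Real.log 2 ≤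
        (Real.log (Real.log N) + |Real.log (Real.log 2)|) / Real.log 2 := by
      gcongr
      linarith
    rw [add_div] at h11
    linarith
  push_cast
  have h12 : a ≤ a / t0 * Real.log (Real.log N) := by
    rw [div_mul_eq_mul_div, le_div_iff₀ ht0p]
    exact mul_le_mul_of_nonneg_left ht ha0.le
  have h13 : Real.log (Real.log N) / Real.log 2 = 1 / Real.log 2 * Real.log (Real.log N) := by ring
  rw [h13] at h9
  nlinarith

/-- the signs for the change of the digits -/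
noncomputable def sg (q : ℕ) (x : ℝ) (n : ℕ) : ℤ :=
  if ⌊x * (q : ℝ) ^ n⌋ % (q : ℤ) < q - 1 then 1 else -1

lemma sg_or (q : ℕ) (x : ℝ) (n : ℕ) : sg q x n = 1 ∨ sg q x n = -1 := by
  unfold sg
  split_ifs <;> simp

lemma nu_injective (ξ : ℕ → ℕ) (hξ : ∀ k, ξ k < Y k) : Function.Injective fun k => nu k (ξ k) := by
  intro j k h
  rcases lt_trichotomy j k with h1 | h1 | h1
  · exact absurd h (nu_lt j k _ _ h1 (hξ j)).ne
  · exact h1
  · exact absurd h.symm (nu_lt k j _ _ h1 (hξ k)).ne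

lemma tsum_nu (ξ : ℕ → ℕ) (hξ : ∀ k, ξ k < Y k) (F : ℕ → ℝ) :
    ∑' k, F (nu k (ξ k)) = ∑' n, (Set.range fun k => nu k (ξ k)).indicator F n := by
  rw [← _root_.tsum_subtype, tsum_range F (nu_injective ξ hξ)]

theorem sparse_sets : ∃ C : ℝ, 0 < C ∧ ∀ T : Set ℝ, T.Countable → ∃ A : Set ℕ, 0 ∉ A ∧
    (∀ N : ℕ, 3 ≤ N → ((A ∩ Set.Icc 1 N).ncard : ℝ) ≤ C * Real.log (Real.log N)) ∧
    ∀ x ∈ T, (∀ b : ℕ, 2 ≤ b → SW.Normal b (x - ∑' n, A.indicator (fun n => 1 / (n.factorial : ℝ)) n)) ∧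
      (∀ b : ℕ, 2 ≤ b → SW.Normal b (x + ∑' n, A.indicator (fun n => 1 / (n.factorial : ℝ)) n)) ∧
      ∀ q : ℕ, 2 ≤ q → ∃ y : ℝ, (∀ i : ℕ, i + 1 ∉ A → SW.digit q y i = SW.digit q x i) ∧
        ∀ b : ℕ, 2 ≤ b → (∃ p : ℕ, p.Prime ∧ p ∣ q ∧ ¬ p ∣ b) → SW.Normal b y := by
  obtain ⟨C, hC, hC2⟩ := loglog_bound
  refine ⟨C, hC, fun T hT => ?_⟩
  obtain ⟨Ω, mΩ, P, hP, ξ, hξm, hξi, hξY, hξP⟩ := exists_xi
  -- the exponential sums for the factorials
  have hF : ∀ σ : ℕ → ℤ, (∀ n, σ n = 1 ∨ σ n = -1) → ∀ᵐ ω ∂P, ∀ x ∈ T, ∀ b : ℕ, 2 ≤ b → ∀ h : ℤ, h ≠ 0 →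
      Tendsto (avg (ex b (x + ∑' k, (σ (nu k (ξ k ω)) : ℝ) / (nu k (ξ k ω)).factorial) h))
        atTop (𝓝 0) := by
    intro σ hσ
    rw [ae_ball_iff hT]
    intro x hx
    rw [ae_all_iff]
    intro b
    rw [ae_all_iff]
    intro hb
    rw [ae_all_iff]
    intro h
    rw [ae_all_iff]
    intro hh
    obtain ⟨p, hpb1, hp⟩ := Nat.exists_infinite_primes (b + 1)
    have hpb : ¬ p ∣ b := fun h => by
      have := Nat.le_of_dvd (by omega) h
      omega
    exact blocks_sum P ξ hξm hξi hξY hξP Nat.factorial Nat.factorial_pos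
      (fun m n hmn => Nat.factorial_le hmn) fact_growth summ_fact σ hσ x b hb p hp hpb
      (fun n m hm hnm hpm => fact_dvd p n m hm hnm hpm) (fun c s => cond_fact p c s hp) h hh
  -- the exponential sums for the powers
  have hQ : ∀ᵐ ω ∂P, ∀ x ∈ T, ∀ q : ℕ, 2 ≤ q → ∀ b : ℕ, 2 ≤ b → (∃ p : ℕ, p.Prime ∧ p ∣ q ∧ ¬ p ∣ b) →
      ∀ h : ℤ, h ≠ 0 →
      Tendsto (avg (ex b (x + ∑' k, (sg q x (nu k (ξ k ω)) : ℝ) / ((q ^ (nu k (ξ k ω)) : ℕ) : ℝ)) h))
        atTop (𝓝 0) := by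
    rw [ae_ball_iff hT]
    intro x hx
    rw [ae_all_iff]
    intro q
    rw [ae_all_iff]
    intro hq
    rw [ae_all_iff]
    intro b
    rw [ae_all_iff]
    intro hb
    rw [ae_all_iff]
    rintro ⟨p, hp, hpq, hpb⟩
    rw [ae_all_iff]
    intro h
    rw [ae_all_iff]
    intro hh
    have hs : Summable fun n : ℕ => 1 / ((q ^ n : ℕ) : ℝ) := by
      have hq2 : (2 : ℝ) ≤ q := by exact_mod_cast hq
      have h1 : Summable fun n : ℕ => (1 / (q : ℝ)) ^ n :=
        summable_geometric_of_lt_one (by positivity) (by rw [div_lt_one (by linarith)]; linarith)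
      refine h1.congr fun n => ?_
      push_cast
      rw [one_div_pow]
    exact blocks_sum P ξ hξm hξi hξY hξP (fun n => q ^ n) (fun n => by positivity)
      (fun m n hmn => Nat.pow_le_pow_right (by omega) hmn) (pow_growth q) hs (sg q x)
      (sg_or q x) x b hb p hp hpb
      (fun n m hm hnm hpm => by
        obtain ⟨j, rfl⟩ := Nat.exists_eq_add_of_lt hnm
        have e1 : q ^ (n + j + 1) = q * q ^ n * q ^ j := by ring
        show p * q ^ n ∣ q ^ (n + j + 1)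
        rw [e1]
        exact (Nat.mul_dvd_mul_right hpq _).mul_right _)
      (fun c s => by
        obtain ⟨n0, hn0⟩ := cond_pow p c s q hp hq hpq
        exact ⟨n0, fun m hm _ => hn0 m hm⟩) h hh
  obtain ⟨ω, h1, h2, h3⟩ := ((hF (fun _ => 1) fun _ => Or.inl rfl).and
    ((hF (fun _ => -1) fun _ => Or.inr rfl).and hQ)).exists
  obtain ⟨A, hA⟩ : ∃ A : Set ℕ, A = Set.range fun k => nu k (ξ k ω) := ⟨_, rfl⟩
  have hA0 : 0 ∉ A := by
    rw [hA]
    rintro ⟨k, hk⟩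
    have := nu_ge k (ξ k ω)
    simp only at hk
    omega
  refine ⟨A, hA0, fun N hN => ?_, fun x hx => ⟨fun b hb => ?_, fun b hb => ?_, fun q hq => ?_⟩⟩
  · refine le_trans ?_ (hC2 N hN)
    rw [hA]
    exact_mod_cast count_nu (fun k => ξ k ω) N
  · refine normal_of b hb _ fun h hh => ?_
    have h4 := h2 x hx b hb h hh
    have e1 : ∑' k, (((-1 : ℤ) : ℤ) : ℝ) / (nu k (ξ k ω)).factorial =
        -∑' n, A.indicator (fun n => 1 / (n.factorial : ℝ)) n := by
      rw [hA, ← tsum_nu (fun k => ξ k ω) (fun k => hξY k ω), ← tsum_neg]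
      refine tsum_congr fun k => ?_
      push_cast
      ring
    rw [e1, ← sub_eq_add_neg] at h4
    exact h4
  · refine normal_of b hb _ fun h hh => ?_
    have h4 := h1 x hx b hb h hh
    have e1 : ∑' k, (((1 : ℤ) : ℤ) : ℝ) / (nu k (ξ k ω)).factorial =
        ∑' n, A.indicator (fun n => 1 / (n.factorial : ℝ)) n := by
      rw [hA, ← tsum_nu (fun k => ξ k ω) (fun k => hξY k ω)]
      refine tsum_congr fun k => ?_
      push_cast
      ring
    rw [e1] at h4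
    exact h4
  · classical
    obtain ⟨u, hu⟩ : ∃ u : ℕ → ℤ, u = fun n => if n ∈ A then sg q x n else 0 := ⟨_, rfl⟩
    obtain ⟨y, hy⟩ : ∃ y : ℝ, y = x + ∑' n, (u n : ℝ) / (q : ℝ) ^ n := ⟨_, rfl⟩
    have e1 : ∑' k, (sg q x (nu k (ξ k ω)) : ℝ) / ((q ^ (nu k (ξ k ω)) : ℕ) : ℝ) =
        ∑' n, (u n : ℝ) / (q : ℝ) ^ n := by
      rw [tsum_nu (fun k => ξ k ω) (fun k => hξY k ω) (fun n => (sg q x n : ℝ) / ((q ^ n : ℕ) : ℝ)), ← hA]
      refine tsum_congr fun n => ?_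
      rw [hu]
      by_cases hn : n ∈ A
      · rw [Set.indicator_of_mem hn]
        simp only [if_pos hn]
        push_cast
        rfl
      · rw [Set.indicator_of_notMem hn]
        simp only [if_neg hn]
        simp
    have h4 : ∀ b : ℕ, 2 ≤ b → (∃ p : ℕ, p.Prime ∧ p ∣ q ∧ ¬ p ∣ b) → ∀ h : ℤ, h ≠ 0 →
        Tendsto (avg (ex b y h)) atTop (𝓝 0) := by
      intro b hb hp h hh
      have := h3 x hx q hq b hb hp h hh
      rw [e1, ← hy] at this
      exact this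
    refine ⟨y, ?_, fun b hb hp => normal_of b hb _ (h4 b hb hp)⟩
    have hirr : ∀ n : ℕ, ∀ m : ℤ, y * (q : ℝ) ^ n ≠ m := by
      intro n m hm
      obtain ⟨p, hp, hpq⟩ := Nat.exists_prime_and_dvd (show q ≠ 1 by omega)
      have hpb : ¬ p ∣ q + 1 := fun h => by
        have := (Nat.dvd_add_right hpq).1 h
        exact hp.one_lt.ne' (Nat.dvd_one.1 this)
      have h5 := h4 (q + 1) (by omega) ⟨p, hp, hpq, hpb⟩ ((q : ℤ) ^ n)
        (pow_ne_zero _ (by exact_mod_cast (by omega : q ≠ 0)))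
      have h6 : ∀ l, ex (q + 1) y ((q : ℤ) ^ n) l = 1 := by
        intro l
        unfold ex
        have e2 : (((q : ℤ) ^ n : ℤ) : ℝ) * (((q + 1 : ℕ) : ℝ) ^ l * y) =
            (((q + 1 : ℕ) ^ l * m : ℤ) : ℝ) := by
          push_cast
          rw [← hm]
          ring
        rw [e2, e_int]
      have h7 : Tendsto (avg (ex (q + 1) y ((q : ℤ) ^ n))) atTop (𝓝 1) := by
        refine tendsto_const_nhds.congr' ?_
        filter_upwards [eventually_gt_atTop 0] with N hN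
        unfold avg
        simp_rw [h6]
        have : (N : ℂ) ≠ 0 := by exact_mod_cast hN.ne'
        simp [this]
      exact zero_ne_one (tendsto_nhds_unique h5 h7)
    intro i hi
    have hq1 : (0 : ℤ) < q := by exact_mod_cast (by omega : 0 < q)
    refine digits_agree q hq x u (fun n => ?_) (by rw [hu]; simp only [if_neg hA0]) (fun n => ?_) y hy
      hirr i (by rw [hu]; simp only [if_neg hi])
    · rw [hu]
      simp only
      split_ifs
      · rcases sg_or q x n with h5 | h5 <;> rw [h5] <;> simp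
      · simp
    · have g1 := Int.emod_nonneg ⌊x * (q : ℝ) ^ (n + 1)⌋ hq1.ne'
      have g2 := Int.emod_lt_of_pos ⌊x * (q : ℝ) ^ (n + 1)⌋ hq1
      have hq2 : (2 : ℤ) ≤ q := by exact_mod_cast hq
      rw [hu]
      simp only
      unfold sg
      split_ifs <;> constructor <;> omega

end H41.Rand
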