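import Pool.Agent.H41.Rand.NT3

/-! # A weighted large sieve inequality by duality -/

set_option autoImplicit false

open Finset

namespace H41.Rand

open H41.SW

theorem large_sieve {α : Type*} (Φ : Finset α) (P : α → ℝ) (hP0 : ∀ φ ∈ Φ, 0 ≤ P φ)
    (hP1 : ∑ φ ∈ Φ, P φ ≤ 1) (q : ℝ) (hq : ∀ φ ∈ Φ, P φ ≤ q) (hq0 : 0 ≤ q)
    {E : Type*} [NormedAddCommGroup E] [InnerProductSpace ℂ E] (v : α → E) (L η : ℝ)
    (hL : ∀ φ ∈ Φ, ‖v φ‖ ^ 2 ≤ L) (hη0 : 0 ≤ η) (hL0 : 0 ≤ L)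
    (hη : ∀ φ ∈ Φ, ∀ φ' ∈ Φ, φ ≠ φ' → ‖inner ℂ (v φ) (v φ')‖ ≤ η) (u : E) :
    ∑ φ ∈ Φ, P φ * ‖inner ℂ (v φ) u‖ ^ 2 ≤ (q * L + η) * ‖u‖ ^ 2 := by
  classical
  obtain ⟨c, hc⟩ : ∃ c : α → ℂ, c = fun φ => inner ℂ (v φ) u := ⟨_, rfl⟩
  obtain ⟨Z, hZ⟩ : ∃ Z : ℝ, Z = ∑ φ ∈ Φ, P φ * ‖c φ‖ ^ 2 := ⟨_, rfl⟩
  have hZ0 : 0 ≤ Z := by
    rw [hZ]
    exact sum_nonneg fun φ hφ => mul_nonneg (hP0 φ hφ) (sq_nonneg _)
  obtain ⟨W, hW⟩ : ∃ W : E, W = ∑ φ ∈ Φ, ((P φ : ℂ) * c φ) • v φ := ⟨_, rfl⟩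
  have h1 : inner ℂ W u = (Z : ℂ) := by
    rw [hW, sum_inner, hZ]
    push_cast
    refine sum_congr rfl fun φ _ => ?_
    rw [inner_smul_left, map_mul, Complex.conj_ofReal]
    have h2 : inner ℂ (v φ) u = c φ := by rw [hc]
    rw [h2, mul_assoc, mul_comm ((starRingEnd ℂ) (c φ)), Complex.mul_conj,
      Complex.normSq_eq_norm_sq]
    push_cast
    rfl
  have h2 : ‖W‖ ^ 2 ≤ (q * L + η) * Z := by
    have h3 : ‖W‖ ^ 2 = ‖∑ φ ∈ Φ, ∑ φ' ∈ Φ,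
        ((P φ : ℂ) * (starRingEnd ℂ) (c φ)) * (((P φ' : ℂ) * c φ') * inner ℂ (v φ) (v φ'))‖ := by
      have h4 : inner ℂ W W = ∑ φ ∈ Φ, ∑ φ' ∈ Φ,
        ((P φ : ℂ) * (starRingEnd ℂ) (c φ)) * (((P φ' : ℂ) * c φ') * inner ℂ (v φ) (v φ')) := by
        rw [hW, sum_inner]
        refine sum_congr rfl fun φ _ => ?_
        rw [inner_sum]
        refine sum_congr rfl fun φ' _ => ?_
        rw [inner_smul_left, inner_smul_right, map_mul, Complex.conj_ofReal]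
      rw [← h4, inner_self_eq_norm_sq_to_K]
      simp
    rw [h3]
    refine (norm_sum_le _ _).trans ?_
    have h4 : ∀ φ ∈ Φ, ‖∑ φ' ∈ Φ, ((P φ : ℂ) * (starRingEnd ℂ) (c φ)) *
        (((P φ' : ℂ) * c φ') * inner ℂ (v φ) (v φ'))‖ ≤
        P φ * ‖c φ‖ ^ 2 * (q * L) + P φ * ‖c φ‖ * (η * ∑ φ' ∈ Φ, P φ' * ‖c φ'‖) := by
      intro φ hφ
      refine (norm_sum_le _ _).trans ?_
      have h5 : ∀ φ' ∈ Φ, ‖((P φ : ℂ) * (starRingEnd ℂ) (c φ)) *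
          (((P φ' : ℂ) * c φ') * inner ℂ (v φ) (v φ'))‖ =
          P φ * ‖c φ‖ * (P φ' * ‖c φ'‖ * ‖inner ℂ (v φ) (v φ')‖) := by
        intro φ' hφ'
        rw [norm_mul, norm_mul, norm_mul, norm_mul, RCLike.norm_conj, Complex.norm_real,
          Complex.norm_real, Real.norm_of_nonneg (hP0 φ hφ), Real.norm_of_nonneg (hP0 φ' hφ')]
      rw [sum_congr rfl h5, ← mul_sum, ← add_sum_erase Φ _ hφ]
      have h6 : ‖inner ℂ (v φ) (v φ)‖ ≤ L := by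
        rw [inner_self_eq_norm_sq_to_K]
        simpa using hL φ hφ
      have h7 : ∑ φ' ∈ Φ.erase φ, P φ' * ‖c φ'‖ * ‖inner ℂ (v φ) (v φ')‖ ≤
          η * ∑ φ' ∈ Φ, P φ' * ‖c φ'‖ := by
        calc ∑ φ' ∈ Φ.erase φ, P φ' * ‖c φ'‖ * ‖inner ℂ (v φ) (v φ')‖
            ≤ ∑ φ' ∈ Φ.erase φ, P φ' * ‖c φ'‖ * η := by
              refine sum_le_sum fun φ' hφ' => ?_
              have h8 := mem_of_mem_erase hφ'
              exact mul_le_mul_of_nonneg_left (hη φ hφ φ' h8 (ne_of_mem_erase hφ').symm)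
                (mul_nonneg (hP0 φ' h8) (norm_nonneg _))
          _ ≤ ∑ φ' ∈ Φ, P φ' * ‖c φ'‖ * η := by
              refine sum_le_sum_of_subset_of_nonneg (erase_subset _ _) fun φ' hφ' _ => ?_
              exact mul_nonneg (mul_nonneg (hP0 φ' hφ') (norm_nonneg _)) hη0
          _ = η * ∑ φ' ∈ Φ, P φ' * ‖c φ'‖ := by rw [← sum_mul, mul_comm]
      have h8 : 0 ≤ P φ * ‖c φ‖ := mul_nonneg (hP0 φ hφ) (norm_nonneg _)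
      calc P φ * ‖c φ‖ * (P φ * ‖c φ‖ * ‖inner ℂ (v φ) (v φ)‖ +
            ∑ φ' ∈ Φ.erase φ, P φ' * ‖c φ'‖ * ‖inner ℂ (v φ) (v φ')‖)
          ≤ P φ * ‖c φ‖ * (q * ‖c φ‖ * L + η * ∑ φ' ∈ Φ, P φ' * ‖c φ'‖) := by
            gcongr
            exact hq φ hφ
        _ = P φ * ‖c φ‖ ^ 2 * (q * L) + P φ * ‖c φ‖ * (η * ∑ φ' ∈ Φ, P φ' * ‖c φ'‖) := by ring
    refine (sum_le_sum h4).trans ?_
    rw [sum_add_distrib, ← sum_mul, ← sum_mul, ← hZ]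
    have h9 : (∑ φ ∈ Φ, P φ * ‖c φ‖) ^ 2 ≤ Z := by
      have h10 := sum_mul_sq_le_sq_mul_sq Φ (fun φ => Real.sqrt (P φ))
        (fun φ => Real.sqrt (P φ) * ‖c φ‖)
      have e1 : ∑ φ ∈ Φ, Real.sqrt (P φ) * (Real.sqrt (P φ) * ‖c φ‖) = ∑ φ ∈ Φ, P φ * ‖c φ‖ := by
        refine sum_congr rfl fun φ hφ => ?_
        rw [← mul_assoc, Real.mul_self_sqrt (hP0 φ hφ)]
      have e2 : ∑ φ ∈ Φ, Real.sqrt (P φ) ^ 2 = ∑ φ ∈ Φ, P φ :=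
        sum_congr rfl fun φ hφ => Real.sq_sqrt (hP0 φ hφ)
      have e3 : ∑ φ ∈ Φ, (Real.sqrt (P φ) * ‖c φ‖) ^ 2 = Z := by
        rw [hZ]
        refine sum_congr rfl fun φ hφ => ?_
        rw [mul_pow, Real.sq_sqrt (hP0 φ hφ)]
      rw [e1, e2, e3] at h10
      calc (∑ φ ∈ Φ, P φ * ‖c φ‖) ^ 2 ≤ (∑ φ ∈ Φ, P φ) * Z := h10
        _ ≤ 1 * Z := by gcongr
        _ = Z := one_mul Z
    nlinarith [h9, hη0]
  have h3 : Z ≤ ‖W‖ * ‖u‖ := by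
    have h4 := norm_inner_le_norm (𝕜 := ℂ) W u
    rw [h1, Complex.norm_real, Real.norm_of_nonneg hZ0] at h4
    exact h4
  have h4 : Z ^ 2 ≤ ((q * L + η) * ‖u‖ ^ 2) * Z := by
    calc Z ^ 2 ≤ (‖W‖ * ‖u‖) ^ 2 := by gcongr
      _ = ‖W‖ ^ 2 * ‖u‖ ^ 2 := by ring
      _ ≤ ((q * L + η) * Z) * ‖u‖ ^ 2 := by gcongr
      _ = ((q * L + η) * ‖u‖ ^ 2) * Z := by ring
  have h5 : ∑ φ ∈ Φ, P φ * ‖inner ℂ (v φ) u‖ ^ 2 = Z := by rw [hZ, hc]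
  rw [h5]
  rcases hZ0.eq_or_lt with h6 | h6
  · rw [← h6]
    positivity
  · rw [sq] at h4
    exact le_of_mul_le_mul_right h4 h6

/-- The exponential sum -/
noncomputable def S (b : ℕ) (h : ℤ) (M : ℕ) (x : ℝ) : ℂ := ∑ l ∈ range M, e (h * ((b : ℝ) ^ l * x))

theorem sieve_sum {α : Type*} (Φ : Finset α) (P : α → ℝ) (hP0 : ∀ φ ∈ Φ, 0 ≤ P φ)
    (hP1 : ∑ φ ∈ Φ, P φ ≤ 1) (q : ℝ) (hq : ∀ φ ∈ Φ, P φ ≤ q) (hq0 : 0 ≤ q)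
    (b : ℕ) (h : ℤ) (M : ℕ) (r : α → ℝ) (η : ℝ) (hη0 : 0 ≤ η)
    (hη : ∀ φ ∈ Φ, ∀ φ' ∈ Φ, φ ≠ φ' → ‖S b h M (r φ - r φ')‖ ≤ η) (τ : ℝ) :
    ∑ φ ∈ Φ, P φ * ‖S b h M (r φ + τ)‖ ^ 2 ≤ (q * M + η) * M := by
  obtain ⟨v, hv⟩ : ∃ v : ℝ → EuclideanSpace ℂ (Fin M),
      v = fun x => WithLp.toLp 2 (fun l : Fin M => e (h * ((b : ℝ) ^ (l : ℕ) * x))) := ⟨_, rfl⟩
  have hn : ∀ x, ‖v x‖ ^ 2 = M := by
    intro x
    rw [hv, EuclideanSpace.norm_sq_eq]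
    simp [e_norm]
  have hi : ∀ x y, inner ℂ (v x) (v y) = S b h M (y - x) := by
    intro x y
    rw [hv, PiLp.inner_apply]
    unfold S
    rw [← Fin.sum_univ_eq_sum_range (fun l => e (h * ((b : ℝ) ^ l * (y - x))))]
    refine sum_congr rfl fun l _ => ?_
    simp only [RCLike.inner_apply]
    rw [← e_neg, ← e_add]
    congr 1
    ring
  have h1 := large_sieve Φ P hP0 hP1 q hq hq0 (fun φ => v (-(r φ))) M η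
    (fun φ _ => (hn _).le) hη0 (Nat.cast_nonneg _)
    (fun φ hφ φ' hφ' hne => by
      rw [hi]
      have : -(r φ') - -(r φ) = r φ - r φ' := by ring
      rw [this]
      exact hη φ hφ φ' hφ' hne) (v τ)
  rw [hn] at h1
  refine le_trans (le_of_eq ?_) h1
  refine sum_congr rfl fun φ _ => ?_
  rw [hi]
  congr 4
  ring

end H41.Rand
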