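import Pool.Agent.H41.SW.B

/-! # Exponential sums over the powers of `b`, denominators divisible by a high power of a prime -/

set_option autoImplicit false

open Finset

namespace H41.Rand

open H41.SW

lemma e_zero : e 0 = 1 := by simp [e]

lemma e_int (n : ℤ) : e n = 1 := by
  unfold e
  rw [Complex.exp_eq_one_iff]
  exact ⟨n, by push_cast; ring⟩

lemma e_eq_one_iff (t : ℝ) : e t = 1 ↔ ∃ n : ℤ, t = n := by
  constructor
  · intro h
    unfold e at h
    rw [Complex.exp_eq_one_iff] at h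
    obtain ⟨n, hn⟩ := h
    refine ⟨n, ?_⟩
    have h2 : (2 * Real.pi * Complex.I : ℂ) ≠ 0 := by
      simp [Real.pi_ne_zero]
    have h3 : (t : ℂ) * (2 * Real.pi * Complex.I) = n * (2 * Real.pi * Complex.I) := by
      push_cast at hn
      linear_combination hn
    have h4 := mul_right_cancel₀ h2 h3
    exact_mod_cast h4
  · rintro ⟨n, rfl⟩
    exact e_int n

lemma e_add_int (t : ℝ) (n : ℤ) : e (t + n) = e t := by
  rw [e_add, e_int, mul_one]

lemma e_nat_mul (t : ℝ) (n : ℕ) : e (n * t) = e t ^ n := by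
  induction n with
  | zero => simp [e_zero]
  | succ n ih =>
    rw [pow_succ, ← ih, ← e_add]
    congr 1
    push_cast
    ring

lemma geom_zero (p : ℕ) (hp : 0 < p) (c : ℤ) (hc : ¬ (p : ℤ) ∣ c) :
    ∑ i ∈ range p, e (i * (c / p)) = 0 := by
  have hp' : (p : ℝ) ≠ 0 := by exact_mod_cast hp.ne'
  simp_rw [e_nat_mul]
  have h1 : e (c / p) ≠ 1 := by
    intro h
    obtain ⟨n, hn⟩ := (e_eq_one_iff _).1 h
    rw [div_eq_iff hp'] at hn
    exact hc ⟨n, by rw [mul_comm]; exact_mod_cast hn⟩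
  have h2 : e (c / p) ^ p = 1 := by
    rw [← e_nat_mul]
    have : (p : ℝ) * (c / p) = c := by field_simp
    rw [this, e_int]
  rw [geom_sum_eq h1, h2, sub_self, zero_div]

lemma shift_period (g : ℕ → ℂ) (T : ℕ) (hg : ∀ l, g (l + T) = g l) (s : ℕ) :
    ∑ l ∈ range T, g (l + s) = ∑ l ∈ range T, g l := by
  induction s with
  | zero => rfl
  | succ s ih =>
    rw [← ih]
    have h2 := sum_range_succ (fun n => g (n + s)) T
    have h3 := sum_range_succ' (fun n => g (n + s)) T
    rw [h2] at h3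
    have h4 : ∀ n, g (n + 1 + s) = g (n + (s + 1)) := fun n => by ring_nf
    simp_rw [h4] at h3
    have h5 : g (T + s) = g s := by rw [add_comm, hg]
    rw [zero_add, h5] at h3
    linear_combination -h3

/-- The sum over a complete period vanishes. -/
theorem vanish (R b : ℕ) (a : ℤ) (p : ℕ) (hp : p.Prime) (t T : ℕ) (hR : 0 < R) (hpR : p ∣ R)
    (ha : ¬ (p : ℤ) ∣ a) (hb : ¬ p ∣ b) (j : ℤ) (hj : ¬ (p : ℤ) ∣ j)
    (ht : (b : ℤ) ^ t = 1 + R * j) (hT : ((p * R : ℕ) : ℤ) ∣ (b : ℤ) ^ T - 1) :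
    ∑ l ∈ range T, e ((b : ℝ) ^ l * a / (p * R : ℕ)) = 0 := by
  have hp0 : (p : ℝ) ≠ 0 := by exact_mod_cast hp.pos.ne'
  have hR0 : (R : ℝ) ≠ 0 := by exact_mod_cast hR.ne'
  have hpi : Prime (p : ℤ) := Nat.prime_iff_prime_int.1 hp
  obtain ⟨g, hg⟩ : ∃ g : ℕ → ℂ, g = fun l => e ((b : ℝ) ^ l * a / (p * R : ℕ)) := ⟨_, rfl⟩
  have hper : ∀ l, g (l + T) = g l := by
    intro l
    obtain ⟨k, hk⟩ := hT
    have hk' : (b : ℝ) ^ T = 1 + ((p * R : ℕ) : ℝ) * k := by
      have : (b : ℤ) ^ T = 1 + ((p * R : ℕ) : ℤ) * k := by linarith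
      exact_mod_cast this
    have h1 : (b : ℝ) ^ (l + T) * a / (p * R : ℕ) = (b : ℝ) ^ l * a / (p * R : ℕ) +
        ((b ^ l * a * k : ℤ) : ℝ) := by
      rw [pow_add, hk']
      push_cast
      field_simp
    rw [hg]
    simp only
    rw [h1, e_add_int]
  have hshift : ∀ l i : ℕ, g (l + i * t) = g l * e (i * (((b ^ l * a * j : ℤ) : ℝ) / p)) := by
    intro l i
    obtain ⟨m, hm⟩ : ∃ m : ℤ, (b : ℤ) ^ (i * t) = 1 + i * (R * j) + (p * R : ℕ) * m := by
      obtain ⟨R', hR'⟩ := hpR
      induction i with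
      | zero => exact ⟨0, by simp⟩
      | succ i ih =>
        obtain ⟨m, hm⟩ := ih
        refine ⟨m * (1 + R * j) + i * R' * j * j, ?_⟩
        rw [add_mul, one_mul, pow_add, hm, ht]
        push_cast
        have : (R : ℤ) = p * R' := by exact_mod_cast hR'
        rw [this]
        ring
    have hm' : (b : ℝ) ^ (i * t) = 1 + i * (R * j) + (p * R : ℕ) * m := by exact_mod_cast hm
    have h1 : (b : ℝ) ^ (l + i * t) * a / (p * R : ℕ) = ((b : ℝ) ^ l * a / (p * R : ℕ) +
        i * (((b ^ l * a * j : ℤ) : ℝ) / p)) + ((b ^ l * a * m : ℤ) : ℝ) := by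
      rw [pow_add, hm']
      push_cast
      field_simp
    rw [hg]
    simp only
    rw [h1, e_add_int, e_add]
  have hz : (p : ℂ) * ∑ l ∈ range T, g l = 0 := by
    calc (p : ℂ) * ∑ l ∈ range T, g l = ∑ i ∈ range p, ∑ l ∈ range T, g (l + i * t) := by
          simp_rw [shift_period g T hper]
          rw [sum_const, card_range, nsmul_eq_mul]
      _ = ∑ l ∈ range T, ∑ i ∈ range p, g (l + i * t) := sum_comm
      _ = ∑ l ∈ range T, g l * ∑ i ∈ range p, e (i * (((b ^ l * a * j : ℤ) : ℝ) / p)) := by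
          refine sum_congr rfl fun l _ => ?_
          rw [mul_sum]
          exact sum_congr rfl fun i _ => hshift l i
      _ = 0 := by
          refine sum_eq_zero fun l _ => ?_
          rw [geom_zero p hp.pos, mul_zero]
          intro h
          rcases hpi.dvd_or_dvd h with h | h
          · rcases hpi.dvd_or_dvd h with h | h
            · have := hpi.dvd_of_dvd_pow h
              exact hb (by exact_mod_cast this)
            · exact ha h
          · exact hj h
  have hpc : (p : ℂ) ≠ 0 := by exact_mod_cast hp.pos.ne'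
  have := (mul_eq_zero.1 hz).resolve_left hpc
  rw [hg] at this
  exact this

/-- Partial sums of a periodic sequence with mean zero. -/
lemma periodic_bound (g : ℕ → ℂ) (T : ℕ) (hT : 0 < T) (hg : ∀ l, g (l + T) = g l)
    (h1 : ∀ l, ‖g l‖ ≤ 1) (h0 : ∑ l ∈ range T, g l = 0) (M : ℕ) :
    ‖∑ l ∈ range M, g l‖ ≤ T := by
  induction M using Nat.strong_induction_on with
  | _ M ih =>
    rcases lt_or_ge M T with h | h
    · refine (norm_sum_le _ _).trans ?_
      refine (sum_le_sum fun l _ => h1 l).trans ?_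
      simp only [sum_const, card_range, nsmul_eq_mul, mul_one]
      exact_mod_cast h.le
    · obtain ⟨M', rfl⟩ := Nat.exists_eq_add_of_le h
      rw [sum_range_add, h0, zero_add]
      have e1 : ∀ l, g (T + l) = g l := fun l => by rw [add_comm, hg]
      simp_rw [e1]
      exact ih M' (by omega)

/-- A uniform form of lifting the exponent. -/
lemma lte (p b : ℕ) (hp : p.Prime) (hb : 2 ≤ b) (hpb : ¬ p ∣ b) :
    ∃ d c : ℕ, 0 < d ∧ 1 ≤ c ∧ ∀ m : ℕ, 0 < m →
      padicValNat p (b ^ (d * m) - 1) = c + padicValNat p m := by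
  haveI := Fact.mk hp
  have hcop : Nat.Coprime b p := (Nat.coprime_comm.1 ((Nat.Prime.coprime_iff_not_dvd hp).2 hpb))
  rcases hp.eq_two_or_odd' with h2 | hodd
  · subst h2
    have hbo : Odd b := Nat.odd_iff.2 (by omega)
    refine ⟨2, padicValNat 2 (b ^ 2 - 1), by norm_num, ?_, fun m hm => ?_⟩
    · have h3 : b ^ 2 - 1 ≠ 0 := by
        have : 2 ^ 2 ≤ b ^ 2 := Nat.pow_le_pow_left hb 2
        omega
      have h4 : 2 ∣ b ^ 2 - 1 := by
        have h5 : Odd (b ^ 2) := hbo.pow
        obtain ⟨k, hk⟩ := h5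
        exact ⟨k, by omega⟩
      exact one_le_padicValNat_of_dvd h3 h4
    · have h3 : 2 ∣ b - 1 := by
        obtain ⟨k, hk⟩ := hbo
        exact ⟨k, by omega⟩
      have h4 := padicValNat.pow_two_sub_pow (x := b) (y := 1) (by omega) (by simpa using h3) hpb
        (n := 2 * m) (by omega) ⟨m, by ring⟩
      have h5 := padicValNat.pow_two_sub_pow (x := b) (y := 1) (by omega) (by simpa using h3) hpb
        (n := 2) (by omega) ⟨1, by ring⟩
      rw [one_pow] at h4 h5
      rw [padicValNat.mul (by norm_num) (by omega)] at h4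
      omega
  · refine ⟨p - 1, padicValNat p (b ^ (p - 1) - 1), by have := hp.two_le; omega, ?_, fun m hm => ?_⟩
    · have h3 : b ^ (p - 1) - 1 ≠ 0 := by
        have : 2 ^ 1 ≤ b ^ (p - 1) := (Nat.pow_le_pow_left hb 1).trans
          (Nat.pow_le_pow_right (by omega) (by have := hp.two_le; omega))
        omega
      refine one_le_padicValNat_of_dvd h3 ?_
      have h4 := Nat.ModEq.pow_totient hcop
      rw [Nat.totient_prime hp] at h4
      exact (Nat.modEq_iff_dvd' (Nat.one_le_pow _ _ (by omega))).1 h4.symm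
    · have h4 := Nat.ModEq.pow_totient hcop
      rw [Nat.totient_prime hp] at h4
      have h5 : p ∣ b ^ (p - 1) - 1 := (Nat.modEq_iff_dvd' (Nat.one_le_pow _ _ (by omega))).1 h4.symm
      have h6 : 1 < b ^ (p - 1) := Nat.one_lt_pow (by have := hp.two_le; omega) (by omega)
      have h7 := padicValNat.pow_sub_pow (p := p) hodd (x := b ^ (p - 1)) (y := 1) h6
        (by simpa using h5) (fun h => hpb (hp.dvd_of_dvd_pow h)) (n := m) (by omega)
      rw [one_pow, ← pow_mul] at h7
      exact h7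

end H41.Rand
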