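import Pool.Agent.H41.Rand.NT

/-! # The bound for the exponential sums -/

set_option autoImplicit false

open Finset

namespace H41.Rand

open H41.SW

lemma exists_t (p b Q u d c : ℕ) (hp : p.Prime) (hb : 2 ≤ b) (hpb : ¬ p ∣ b) (hd : 0 < d)
    (hlte : ∀ m : ℕ, 0 < m → padicValNat p (b ^ (d * m) - 1) = c + padicValNat p m)
    (hpQ : ¬ p ∣ Q) (hQ : 0 < Q) (hcop : Nat.Coprime b Q) (hu : c + 1 ≤ u)
    (hr : ∀ r : ℕ, r.Prime → r ∣ Q → r ≤ p ^ (u - c)) :
    ∃ t : ℕ, p ^ (u - 1) * Q ∣ b ^ t - 1 ∧ ¬ p ^ u ∣ b ^ t - 1 := by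
  have := Fact.mk hp
  obtain ⟨E, hE⟩ : ∃ E : ℕ, E = Q * ∏ r ∈ Q.primeFactors, ordCompl[p] (r - 1) := ⟨_, rfl⟩
  have hr1 : ∀ r ∈ Q.primeFactors, r - 1 ≠ 0 := by
    intro r hr
    have := (Nat.prime_of_mem_primeFactors hr).two_le
    omega
  have hpE : ¬ p ∣ E := by
    rw [hE]
    intro h
    rcases hp.dvd_mul.1 h with h | h
    · exact hpQ h
    · obtain ⟨r, hr, h2⟩ := (Prime.dvd_finsetProd_iff (Nat.prime_iff.1 hp) _).1 h
      exact Nat.not_dvd_ordCompl hp (hr1 r hr) h2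
  have hE0 : 0 < E := Nat.pos_of_ne_zero fun h => hpE (h ▸ dvd_zero p)
  obtain ⟨t, ht⟩ : ∃ t : ℕ, t = d * (p ^ (u - 1 - c) * E) := ⟨_, rfl⟩
  have hpp := hp.pos
  have ht0 : 0 < t := by rw [ht]; positivity
  have hbt : 1 < b ^ t := Nat.one_lt_pow ht0.ne' (by omega)
  have hv : padicValNat p (b ^ t - 1) = u - 1 := by
    rw [ht, hlte _ (by positivity), padicValNat.mul (by positivity) hE0.ne',
      padicValNat.prime_pow, padicValNat.eq_zero_of_not_dvd hpE]
    omega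
  have hne : b ^ t - 1 ≠ 0 := by omega
  refine ⟨t, ?_, ?_⟩
  · refine Nat.Coprime.mul_dvd_of_dvd_of_dvd ?_ ?_ ?_
    · exact Nat.Coprime.pow_left _ ((Nat.Prime.coprime_iff_not_dvd hp).2 hpQ)
    · rw [← hv]
      exact pow_padicValNat_dvd
    · rw [Nat.dvd_iff_prime_pow_dvd_dvd]
      intro r k hrp hrk
      rcases Nat.eq_zero_or_pos k with hk | hk
      · subst hk; simp
      have hrQ : r ∣ Q := (dvd_pow_self r hk.ne').trans hrk
      have hrm : r ∈ Q.primeFactors := Nat.mem_primeFactors.2 ⟨hrp, hrQ, hQ.ne'⟩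
      have h1 : Nat.totient (r ^ k) ∣ t := by
        rw [Nat.totient_prime_pow hrp hk]
        have h2 : r ^ (k - 1) ∣ Q := (pow_dvd_pow r (by omega)).trans hrk
        have h3 : r - 1 = p ^ (padicValNat p (r - 1)) * ordCompl[p] (r - 1) := by
          rw [← Nat.factorization_def _ hp]
          exact (Nat.ordProj_mul_ordCompl_eq_self (r - 1) p).symm
        have h4 : padicValNat p (r - 1) ≤ u - 1 - c := by
          have h5 : p ^ padicValNat p (r - 1) ≤ r - 1 :=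
            Nat.le_of_dvd (Nat.pos_of_ne_zero (hr1 r hrm)) pow_padicValNat_dvd
          have h6 : r - 1 < p ^ (u - c) := by
            have := hr r hrp hrQ
            have := hrp.two_le
            omega
          have h7 := (Nat.pow_lt_pow_iff_right hp.one_lt).1 (h5.trans_lt h6)
          omega
        have h5 : ordCompl[p] (r - 1) ∣ ∏ r ∈ Q.primeFactors, ordCompl[p] (r - 1) :=
          dvd_prod_of_mem (fun r => ordCompl[p] (r - 1)) hrm
        calc r ^ (k - 1) * (r - 1) = r ^ (k - 1) * (p ^ (padicValNat p (r - 1)) * ordCompl[p] (r - 1)) := by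
              rw [← h3]
          _ = p ^ (padicValNat p (r - 1)) * (r ^ (k - 1) * ordCompl[p] (r - 1)) := by ring
          _ ∣ p ^ (u - 1 - c) * (Q * ∏ r ∈ Q.primeFactors, ordCompl[p] (r - 1)) :=
              mul_dvd_mul (pow_dvd_pow p h4) (mul_dvd_mul h2 h5)
          _ ∣ t := by rw [ht, hE]; exact dvd_mul_left _ _
      have h2 : Nat.Coprime b (r ^ k) := hcop.coprime_dvd_right hrk
      obtain ⟨m, hm⟩ := h1
      have h3 := (Nat.ModEq.pow_totient h2).pow m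
      rw [← pow_mul, ← hm, one_pow] at h3
      exact (Nat.modEq_iff_dvd' (by omega)).1 h3.symm
  · intro h
    have h1 := (padicValNat_dvd_iff_le hne).1 h
    omega

/-- The bound for a fraction `a / D`. -/
theorem sum_bound (p b d c : ℕ) (hp : p.Prime) (hb : 2 ≤ b) (hpb : ¬ p ∣ b) (hd : 0 < d)
    (hc : 1 ≤ c)
    (hlte : ∀ m : ℕ, 0 < m → padicValNat p (b ^ (d * m) - 1) = c + padicValNat p m)
    (D : ℕ) (hD : 0 < D) (a : ℤ) (ha : ¬ (p : ℤ) ∣ a) (hu : c + 1 ≤ padicValNat p D)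
    (hr : ∀ r : ℕ, r.Prime → r ∣ D → r ≤ p ^ (padicValNat p D - c)) (M : ℕ) :
    ‖∑ l ∈ range M, e ((b : ℝ) ^ l * a / D)‖ ≤ 2 * D := by
  have := Fact.mk hp
  have hD0 : (D : ℝ) ≠ 0 := by exact_mod_cast hD.ne'
  -- the part of `D` coprime to `b`
  obtain ⟨G, hG⟩ : ∃ G : ℕ, G = Nat.gcd D (b ^ D) := ⟨_, rfl⟩
  have hGD : G ∣ D := by rw [hG]; exact Nat.gcd_dvd_left _ _
  have hGb : G ∣ b ^ D := by rw [hG]; exact Nat.gcd_dvd_right _ _
  have hG0 : 0 < G := Nat.pos_of_dvd_of_pos hGD hD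
  obtain ⟨Q, hQ⟩ := hGD
  have hQ0 : 0 < Q := Nat.pos_of_ne_zero fun h => by rw [h, mul_zero] at hQ; omega
  have hcop : Nat.Coprime b Q := by
    refine Nat.Coprime.symm (Nat.coprime_of_dvd fun r hrp hrQ hrb => ?_)
    have := Fact.mk hrp
    have h3 : r ^ (padicValNat r G + 1) ∣ D := by
      rw [pow_succ]
      calc r ^ padicValNat r G * r ∣ G * Q := mul_dvd_mul pow_padicValNat_dvd hrQ
        _ = D := hQ.symm
    have h1 : r ^ (padicValNat r G + 1) ∣ G := by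
      have h2 : padicValNat r G + 1 ≤ D := by
        have h4 := Nat.le_of_dvd hD h3
        have h5 : padicValNat r G + 1 < r ^ (padicValNat r G + 1) := Nat.lt_pow_self hrp.one_lt
        omega
      have h6 := Nat.dvd_gcd h3 ((pow_dvd_pow r h2).trans (pow_dvd_pow_of_dvd hrb D))
      rwa [← hG] at h6
    have h2 := (padicValNat_dvd_iff_le hG0.ne').1 h1
    omega
  have hpG : ¬ p ∣ G := fun h => hpb (hp.dvd_of_dvd_pow (h.trans hGb))
  have hvD : padicValNat p D = padicValNat p Q := by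
    rw [hQ, padicValNat.mul hG0.ne' hQ0.ne', padicValNat.eq_zero_of_not_dvd hpG, zero_add]
  obtain ⟨u, hu'⟩ : ∃ u : ℕ, u = padicValNat p Q := ⟨_, rfl⟩
  rw [hvD, ← hu'] at hu
  rw [hvD, ← hu'] at hr
  obtain ⟨Q', hQ'⟩ : p ^ u ∣ Q := by rw [hu']; exact pow_padicValNat_dvd
  have hQ'0 : 0 < Q' := Nat.pos_of_ne_zero fun h => by rw [h, mul_zero] at hQ'; omega
  have hpQ' : ¬ p ∣ Q' := by
    intro h
    have h1 : p ^ (u + 1) ∣ Q := by
      rw [hQ', pow_succ]
      exact mul_dvd_mul_left _ h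
    have h2 := (padicValNat_dvd_iff_le hQ0.ne').1 h1
    omega
  obtain ⟨t, ht1, ht2⟩ := exists_t p b Q' u d c hp hb hpb hd hlte hpQ' hQ'0
    (hcop.coprime_dvd_right ⟨p ^ u, by rw [hQ']; ring⟩) hu
    (fun r hrp hrQ => hr r hrp (hrQ.trans ⟨G * p ^ u, by rw [hQ, hQ']; ring⟩))
  obtain ⟨R, hR⟩ : ∃ R : ℕ, R = p ^ (u - 1) * Q' := ⟨_, rfl⟩
  have hR0 : 0 < R := by rw [hR]; exact Nat.mul_pos (pow_pos hp.pos _) hQ'0
  have hpRQ : p * R = Q := by
    rw [hR, hQ', ← mul_assoc, ← pow_succ']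
    congr 2
    omega
  have hpR : p ∣ R := by
    rw [hR]
    exact (dvd_pow_self p (by omega)).mul_right _
  rw [← hR] at ht1
  obtain ⟨j, hj⟩ := ht1
  have hbt : b ^ t = 1 + R * j := by
    have := Nat.one_le_pow t b (by omega)
    omega
  have hpj : ¬ p ∣ j := by
    intro h
    apply ht2
    obtain ⟨j', hj'⟩ := h
    rw [hj, hj', hR]
    refine ⟨Q' * j', ?_⟩
    have : p ^ u = p ^ (u - 1) * p := by rw [← pow_succ]; congr 1; omega
    rw [this]
    ring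
  -- the tail
  obtain ⟨g0, hg0⟩ := hGb
  obtain ⟨a', ha'⟩ : ∃ a' : ℤ, a' = g0 * a := ⟨_, rfl⟩
  have hpa' : ¬ (p : ℤ) ∣ a' := by
    rw [ha']
    intro h
    rcases (Nat.prime_iff_prime_int.1 hp).dvd_or_dvd h with h | h
    · have h1 : p ∣ b ^ D := by
        rw [hg0]
        exact (show p ∣ g0 by exact_mod_cast h).mul_left _
      exact hpb (hp.dvd_of_dvd_pow h1)
    · exact ha h
  obtain ⟨T, hT⟩ : ∃ T : ℕ, T = Nat.totient Q := ⟨_, rfl⟩
  have hT0 : 0 < T := by rw [hT]; exact Nat.totient_pos.2 hQ0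
  have hTQ : T ≤ Q := by rw [hT]; exact Nat.totient_le _
  have hbT : ((p * R : ℕ) : ℤ) ∣ (b : ℤ) ^ T - 1 := by
    rw [hpRQ]
    have h1 := Nat.ModEq.pow_totient hcop
    rw [← hT] at h1
    have h2 := (Nat.modEq_iff_dvd.1 h1.symm)
    push_cast at h2
    exact h2
  obtain ⟨g, hg⟩ : ∃ g : ℕ → ℂ, g = fun l => e ((b : ℝ) ^ l * a' / (p * R : ℕ)) := ⟨_, rfl⟩
  have hper : ∀ l, g (l + T) = g l := by
    intro l
    obtain ⟨k, hk⟩ := hbT
    have hk' : (b : ℝ) ^ T = 1 + ((p * R : ℕ) : ℝ) * k := by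
      have : (b : ℤ) ^ T = 1 + ((p * R : ℕ) : ℤ) * k := by linarith
      exact_mod_cast this
    have hp0 : (p : ℝ) ≠ 0 := by exact_mod_cast hp.pos.ne'
    have hR0 : (R : ℝ) ≠ 0 := by exact_mod_cast hR0.ne'
    have h1 : (b : ℝ) ^ (l + T) * a' / (p * R : ℕ) = (b : ℝ) ^ l * a' / (p * R : ℕ) +
        ((b ^ l * a' * k : ℤ) : ℝ) := by
      rw [pow_add, hk']
      push_cast
      field_simp
    rw [hg]
    simp only
    rw [h1, e_add_int]
  have hvan : ∑ l ∈ range T, g l = 0 := by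
    rw [hg]
    exact vanish R b a' p hp t T hR0 hpR hpa' hpb j (by exact_mod_cast hpj)
      (by exact_mod_cast hbt) hbT
  have htail : ∀ l, e ((b : ℝ) ^ (D + l) * a / D) = g l := by
    intro l
    rw [hg]
    simp only
    congr 1
    have h1 : (b : ℝ) ^ D = G * g0 := by exact_mod_cast hg0
    have h2 : (D : ℝ) = G * (p * R : ℕ) := by rw [hpRQ]; exact_mod_cast hQ
    have hG1 : (G : ℝ) ≠ 0 := by exact_mod_cast hG0.ne'
    have h3 : ((p * R : ℕ) : ℝ) ≠ 0 := by rw [hpRQ]; exact_mod_cast hQ0.ne'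
    rw [pow_add, h1, h2, ha']
    push_cast at h3 ⊢
    field_simp
  rcases le_or_gt M D with h | h
  · refine (norm_sum_le _ _).trans ?_
    simp_rw [e_norm]
    simp only [sum_const, card_range, nsmul_eq_mul, mul_one]
    have : (M : ℝ) ≤ D := by exact_mod_cast h
    have : (0 : ℝ) ≤ D := Nat.cast_nonneg _
    linarith
  · obtain ⟨M', rfl⟩ := Nat.exists_eq_add_of_le h.le
    rw [sum_range_add]
    simp_rw [htail]
    refine (norm_add_le _ _).trans ?_
    have h1 : ‖∑ l ∈ range D, e ((b : ℝ) ^ l * a / D)‖ ≤ D := by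
      refine (norm_sum_le _ _).trans ?_
      simp_rw [e_norm]
      simp
    have h2 : ‖∑ l ∈ range M', g l‖ ≤ T :=
      periodic_bound g T hT0 hper (fun l => by rw [hg]; exact (e_norm _).le) hvan M'
    have h3 : (T : ℝ) ≤ D := by
      have : Q ≤ D := Nat.le_of_dvd hD ⟨G, by rw [hQ]; ring⟩
      exact_mod_cast hTQ.trans this
    linarith

end H41.Rand
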