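import Pool.Agent.H41.Rand.NT2

/-! # The bound with a frequency, and the denominators `n!` and `q ^ n` -/

set_option autoImplicit false

open Finset Filter

namespace H41.Rand

open H41.SW

/-- the denominator `D` has a high power of `p` -/
def Cond (p c s D : ℕ) : Prop :=
  0 < D ∧ c + 1 + s ≤ padicValNat p D ∧
    ∀ r : ℕ, r.Prime → r ∣ D → r ≤ p ^ (padicValNat p D - s - c)

theorem key (p b d c : ℕ) (hp : p.Prime) (hb : 2 ≤ b) (hpb : ¬ p ∣ b) (hd : 0 < d)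
    (hc : 1 ≤ c)
    (hlte : ∀ m : ℕ, 0 < m → padicValNat p (b ^ (d * m) - 1) = c + padicValNat p m)
    (h : ℤ) (hh : h ≠ 0) (D : ℕ) (hD : Cond p c (padicValNat p h.natAbs) D)
    (A : ℤ) (hA : ¬ (p : ℤ) ∣ A) (M : ℕ) :
    ‖∑ l ∈ range M, e (h * ((b : ℝ) ^ l * (A / D)))‖ ≤ 2 * D := by
  have := Fact.mk hp
  obtain ⟨s, hs⟩ : ∃ s : ℕ, s = padicValNat p h.natAbs := ⟨_, rfl⟩
  rw [← hs] at hD
  obtain ⟨hD0, hD1, hD2⟩ := hD
  have hh0 : h.natAbs ≠ 0 := Int.natAbs_ne_zero.2 hh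
  obtain ⟨h1, hh1⟩ : (p : ℤ) ^ s ∣ h := by
    rw [← Int.natCast_pow, Int.natCast_dvd, hs]
    exact pow_padicValNat_dvd
  have hph1 : ¬ (p : ℤ) ∣ h1 := by
    intro h2
    have h3 : p ^ (s + 1) ∣ h.natAbs := by
      rw [← Int.natCast_dvd]
      push_cast
      rw [hh1, pow_succ]
      exact mul_dvd_mul_left _ h2
    have h4 := (padicValNat_dvd_iff_le hh0).1 h3
    omega
  obtain ⟨D', hD'⟩ : p ^ s ∣ D := (pow_dvd_pow p (by omega)).trans pow_padicValNat_dvd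
  have hD'0 : 0 < D' := Nat.pos_of_ne_zero fun h => by rw [h, mul_zero] at hD'; omega
  have hpp := hp.pos
  have hv : padicValNat p D = s + padicValNat p D' := by
    rw [hD', padicValNat.mul (by positivity) hD'0.ne', padicValNat.prime_pow]
  have h5 := sum_bound p b d c hp hb hpb hd hc hlte D' hD'0 (h1 * A)
    (fun h6 => by
      rcases (Nat.prime_iff_prime_int.1 hp).dvd_or_dvd h6 with h7 | h7
      · exact hph1 h7
      · exact hA h7) (by omega)
    (fun r hrp hr => by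
      have h6 := hD2 r hrp (hr.trans ⟨p ^ s, by rw [hD']; ring⟩)
      have h7 : padicValNat p D - s - c = padicValNat p D' - c := by omega
      rwa [h7] at h6) M
  have h6 : ∀ l : ℕ, (h : ℝ) * ((b : ℝ) ^ l * (A / D)) = (b : ℝ) ^ l * ((h1 * A : ℤ) : ℝ) / D' := by
    intro l
    have e1 : (h : ℝ) = (p : ℝ) ^ s * h1 := by exact_mod_cast hh1
    have e2 : (D : ℝ) = (p : ℝ) ^ s * D' := by exact_mod_cast hD'
    have e3 : (p : ℝ) ^ s ≠ 0 := by positivity
    have e4 : (D' : ℝ) ≠ 0 := by exact_mod_cast hD'0.ne'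
    rw [e1, e2]
    push_cast
    field_simp
  simp_rw [h6]
  refine h5.trans ?_
  have h7 : D' ≤ D := Nat.le_of_dvd hD0 ⟨p ^ s, by rw [hD']; ring⟩
  have : (D' : ℝ) ≤ D := by exact_mod_cast h7
  linarith

lemma pow_dvd_fact (p : ℕ) (hp : 0 < p) (k : ℕ) : p ^ k ∣ (p * k).factorial := by
  induction k with
  | zero => simp
  | succ k ih =>
    obtain ⟨j, hj⟩ : ∃ j, p * (k + 1) = j + 1 := ⟨p * (k + 1) - 1, by
      have : 0 < p * (k + 1) := by positivity
      omega⟩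
    have h1 : (p * k).factorial ∣ j.factorial := by
      refine Nat.factorial_dvd_factorial ?_
      have : p * (k + 1) = p * k + p := by ring
      omega
    rw [hj, Nat.factorial_succ, ← hj, pow_succ]
    calc p ^ k * p ∣ j.factorial * (p * (k + 1)) := mul_dvd_mul (ih.trans h1) (dvd_mul_right _ _)
      _ = p * (k + 1) * j.factorial := by ring

lemma cond_fact (p c s : ℕ) (hp : p.Prime) :
    ∃ n0 : ℕ, ∀ m : ℕ, n0 ≤ m → p ∣ m → Cond p c s m.factorial := by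
  have := Fact.mk hp
  refine ⟨p * (2 * (s + c + 3)), fun m hm hpm => ?_⟩
  obtain ⟨k, rfl⟩ := hpm
  have hk : 2 * (s + c + 3) ≤ k := Nat.le_of_mul_le_mul_left hm hp.pos
  have hv : k ≤ padicValNat p (p * k).factorial := by
    exact (padicValNat_dvd_iff_le (Nat.factorial_ne_zero _)).1 (pow_dvd_fact p hp.pos k)
  refine ⟨Nat.factorial_pos _, by omega, fun r hrp hr => ?_⟩
  have h1 : r ≤ p * k := (Nat.Prime.dvd_factorial hrp).1 hr
  refine h1.trans ?_
  have h2 : p * k ≤ p ^ (k - s - c) := by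
    obtain ⟨j, hj⟩ : ∃ j, k = s + c + 1 + j := ⟨k - (s + c + 1), by omega⟩
    have h3 : k - s - c = j + 1 := by omega
    rw [h3, pow_succ']
    refine Nat.mul_le_mul_left _ ?_
    have h4 : k ≤ 2 * j := by omega
    have h5 : 2 * j ≤ 2 ^ j := by
      rcases Nat.lt_or_ge j 3 with h | h
      · omega
      · clear h3 h4 hj
        induction j, h using Nat.le_induction with
        | base => norm_num
        | succ j hj ih => rw [pow_succ]; omega
    exact (h4.trans h5).trans (Nat.pow_le_pow_left hp.two_le j)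
  exact h2.trans (Nat.pow_le_pow_right hp.pos (by omega))

lemma cond_pow (p c s q : ℕ) (hp : p.Prime) (hq : 2 ≤ q) (hpq : p ∣ q) :
    ∃ n0 : ℕ, ∀ m : ℕ, n0 ≤ m → Cond p c s (q ^ m) := by
  have := Fact.mk hp
  refine ⟨s + c + 1 + q, fun m hm => ?_⟩
  have hv : m ≤ padicValNat p (q ^ m) :=
    (padicValNat_dvd_iff_le (by positivity)).1 (pow_dvd_pow_of_dvd hpq m)
  refine ⟨by positivity, by omega, fun r hrp hr => ?_⟩
  have h1 : r ≤ q := Nat.le_of_dvd (by omega) (hrp.dvd_of_dvd_pow hr)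
  have h2 : q ≤ p ^ q := (Nat.lt_pow_self hp.one_lt).le
  exact h1.trans (h2.trans (Nat.pow_le_pow_right hp.pos (by omega)))

/-- `x` is a multiple of `p / D m` -/
def Low (D : ℕ → ℕ) (p m : ℕ) (x : ℝ) : Prop := ∃ B : ℤ, x = p * B / D m

lemma low_zero (D : ℕ → ℕ) (p m : ℕ) : Low D p m 0 := ⟨0, by simp⟩

lemma low_add (D : ℕ → ℕ) (p m : ℕ) {x y : ℝ} (hx : Low D p m x) (hy : Low D p m y) :
    Low D p m (x + y) := by
  obtain ⟨A, hA⟩ := hx
  obtain ⟨B, hB⟩ := hy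
  exact ⟨A + B, by rw [hA, hB]; push_cast; ring⟩

lemma low_neg (D : ℕ → ℕ) (p m : ℕ) {x : ℝ} (hx : Low D p m x) : Low D p m (-x) := by
  obtain ⟨A, hA⟩ := hx
  exact ⟨-A, by rw [hA]; push_cast; ring⟩

lemma low_sub (D : ℕ → ℕ) (p m : ℕ) {x y : ℝ} (hx : Low D p m x) (hy : Low D p m y) :
    Low D p m (x - y) := by
  rw [sub_eq_add_neg]
  exact low_add D p m hx (low_neg D p m hy)

lemma low_sum (D : ℕ → ℕ) (p m : ℕ) {ι : Type*} (S : Finset ι) (x : ι → ℝ)
    (h : ∀ i ∈ S, Low D p m (x i)) : Low D p m (∑ i ∈ S, x i) := by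
  classical
  induction S using Finset.induction_on with
  | empty => simpa using low_zero D p m
  | insert a S ha ih =>
    rw [sum_insert ha]
    exact low_add D p m (h a (mem_insert_self _ _)) (ih fun i hi => h i (mem_insert_of_mem hi))

lemma low_of_dvd (D : ℕ → ℕ) (p m n : ℕ) (τ : ℤ) (hn : D n ≠ 0) (hm : D m ≠ 0) (hp : p ≠ 0)
    (h : p * D n ∣ D m) : Low D p m (τ / D n) := by
  obtain ⟨k, hk⟩ := h
  rcases Nat.eq_zero_or_pos k with hk0 | hk0
  · rw [hk0, mul_zero] at hk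
    exact absurd hk hm
  · refine ⟨τ * k, ?_⟩
    have h1 : (D n : ℝ) ≠ 0 := by exact_mod_cast hn
    have h2 : (p : ℝ) ≠ 0 := by exact_mod_cast hp
    have h3 : (k : ℝ) ≠ 0 := by exact_mod_cast hk0.ne'
    rw [hk]
    push_cast
    field_simp

lemma top_low (D : ℕ → ℕ) (p m : ℕ) (τ : ℤ) (hτ : ¬ (p : ℤ) ∣ τ) {y : ℝ} (hy : Low D p m y) :
    ∃ A : ℤ, ¬ (p : ℤ) ∣ A ∧ (τ : ℝ) / D m + y = A / D m := by
  obtain ⟨B, hB⟩ := hy
  refine ⟨τ + p * B, fun h => hτ ?_, ?_⟩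
  · exact (Int.dvd_add_left (dvd_mul_right _ _)).1 h
  · rw [hB]
    push_cast
    ring

end H41.Rand
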