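import Pool.Agent.H41.Rand.Taub

/-! # The second moment for independent random changes -/

set_option autoImplicit false

open Finset Filter Topology MeasureTheory ProbabilityTheory

namespace H41.Rand

open H41.SW

lemma continuous_e : Continuous e := by
  unfold e
  fun_prop

lemma continuous_S (b : ℕ) (h : ℤ) (M : ℕ) : Continuous (S b h M) := by
  unfold S
  have := continuous_e
  fun_prop

lemma measurable_S (b : ℕ) (h : ℤ) (M : ℕ) :
    Measurable fun x => ENNReal.ofReal (‖S b h M x‖ ^ 2) := by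
  have := continuous_S b h M
  exact (ENNReal.continuous_ofReal.comp (by fun_prop)).measurable

/-- the value of a configuration -/
noncomputable def val (f : ℕ → ℕ → ℝ) (K : Finset ℕ) (φ : K → ℕ) : ℝ := ∑ k : K, f k (φ k)

variable {Ω : Type*} [MeasurableSpace Ω] (μ : Measure Ω) [IsProbabilityMeasure μ]
  (ξ : ℕ → Ω → ℕ)

/-- the configuration on `K` -/
def conf (K : Finset ℕ) (ω : Ω) : K → ℕ := fun k => ξ k ω

theorem second_moment (hm : ∀ k, Measurable (ξ k)) (hind : iIndepFun ξ μ)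
    (K K' : Finset ℕ) (hK : Disjoint K K') (Φ : Finset (K → ℕ)) (f : ℕ → ℕ → ℝ)
    (b : ℕ) (h : ℤ) (M : ℕ) (q η : ℝ) (hq0 : 0 ≤ q) (hη0 : 0 ≤ η)
    (hq : ∀ φ ∈ Φ, μ.real {ω | conf ξ K ω = φ} ≤ q)
    (hη : ∀ φ ∈ Φ, ∀ φ' ∈ Φ, φ ≠ φ' → ‖S b h M (val f K φ - val f K φ')‖ ≤ η) (x : ℝ) :
    ∫⁻ ω, Set.indicator {ω | conf ξ K ω ∈ Φ} (fun ω => ENNReal.ofReal
      (‖S b h M (val f K (conf ξ K ω) + (x + val f K' (conf ξ K' ω)))‖ ^ 2)) ω ∂μ ≤
      ENNReal.ofReal ((q * M + η) * M) := by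
  classical
  have hmc : ∀ L : Finset ℕ, Measurable (conf ξ L) := fun L => by
    unfold conf
    exact measurable_pi_lambda _ fun k => hm k
  have hmv : ∀ L : Finset ℕ, Measurable (val f L) := fun L => measurable_of_countable _
  have hset : ∀ φ : K → ℕ, MeasurableSet {ω | conf ξ K ω = φ} := fun φ =>
    hmc K (measurableSet_singleton φ)
  -- pointwise decomposition
  have h1 : ∀ ω, Set.indicator {ω | conf ξ K ω ∈ Φ} (fun ω => ENNReal.ofReal
      (‖S b h M (val f K (conf ξ K ω) + (x + val f K' (conf ξ K' ω)))‖ ^ 2)) ω =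
      ∑ φ ∈ Φ, (if conf ξ K ω = φ then 1 else 0) * ENNReal.ofReal
        (‖S b h M (val f K φ + (x + val f K' (conf ξ K' ω)))‖ ^ 2) := by
    intro ω
    by_cases hω : conf ξ K ω ∈ Φ
    · rw [Set.indicator_of_mem (by exact hω), sum_eq_single_of_mem _ hω]
      · simp
      · intro φ _ hne
        rw [if_neg (Ne.symm hne), zero_mul]
    · rw [Set.indicator_of_notMem (by exact hω), sum_eq_zero]
      intro φ hφ
      rw [if_neg, zero_mul]
      intro h2
      rw [h2] at hω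
      exact hω hφ
  simp_rw [h1]
  have hmG : ∀ φ : K → ℕ, Measurable fun ω => ENNReal.ofReal
        (‖S b h M (val f K φ + (x + val f K' (conf ξ K' ω)))‖ ^ 2) := fun φ =>
    (measurable_S b h M).comp (((hmv K').comp (hmc K')).const_add x |>.const_add _)
  have hmI : ∀ φ : K → ℕ, Measurable fun ω => (if conf ξ K ω = φ then (1 : ENNReal) else 0) :=
    fun φ => Measurable.ite (hset φ) measurable_const measurable_const
  rw [lintegral_finsetSum _ fun φ _ => (hmI φ).fun_mul (hmG φ)]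
  have h2 : ∀ φ ∈ Φ, ∫⁻ ω, (if conf ξ K ω = φ then 1 else 0) * ENNReal.ofReal
        (‖S b h M (val f K φ + (x + val f K' (conf ξ K' ω)))‖ ^ 2) ∂μ =
      ENNReal.ofReal (μ.real {ω | conf ξ K ω = φ}) * ∫⁻ ω, ENNReal.ofReal
        (‖S b h M (val f K φ + (x + val f K' (conf ξ K' ω)))‖ ^ 2) ∂μ := by
    intro φ _
    have h3 := (hind.indepFun_finset K K' hK hm).comp
      (φ := fun ψ : K → ℕ => (if ψ = φ then (1 : ENNReal) else 0))
      (ψ := fun ψ : K' → ℕ => ENNReal.ofReal (‖S b h M (val f K φ + (x + val f K' ψ))‖ ^ 2))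
      (measurable_of_countable _) (measurable_of_countable _)
    have h4 := lintegral_mul_eq_lintegral_mul_lintegral_of_indepFun'' (μ := μ)
      (f := fun ω => (if conf ξ K ω = φ then (1 : ENNReal) else 0))
      (g := fun ω => ENNReal.ofReal
        (‖S b h M (val f K φ + (x + val f K' (conf ξ K' ω)))‖ ^ 2))
      (hmI φ).aemeasurable (hmG φ).aemeasurable h3
    rw [h4]
    congr 1
    have h5 : ∫⁻ ω, (if conf ξ K ω = φ then (1 : ENNReal) else 0) ∂μ =
        ∫⁻ ω, Set.indicator {ω | conf ξ K ω = φ} 1 ω ∂μ := by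
      refine lintegral_congr fun ω => ?_
      simp [Set.indicator_apply]
    rw [h5, lintegral_indicator_one (hset φ), ofReal_measureReal]
  rw [sum_congr rfl h2]
  have h3 : ∑ φ ∈ Φ, ENNReal.ofReal (μ.real {ω | conf ξ K ω = φ}) * ∫⁻ ω, ENNReal.ofReal
        (‖S b h M (val f K φ + (x + val f K' (conf ξ K' ω)))‖ ^ 2) ∂μ =
      ∫⁻ ω, ∑ φ ∈ Φ, ENNReal.ofReal (μ.real {ω | conf ξ K ω = φ}) * ENNReal.ofReal
        (‖S b h M (val f K φ + (x + val f K' (conf ξ K' ω)))‖ ^ 2) ∂μ := by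
    rw [lintegral_finsetSum _ fun φ _ => (hmG φ).const_mul _]
    exact sum_congr rfl fun φ _ => (lintegral_const_mul _ (hmG φ)).symm
  rw [h3]
  have hP1 : ∑ φ ∈ Φ, μ.real {ω | conf ξ K ω = φ} ≤ 1 := by
    rw [← measureReal_biUnion_finset (fun φ _ φ' _ hne => Set.disjoint_left.2 fun ω h1 h2 =>
      hne (h1.symm.trans h2)) fun φ _ => hset φ]
    exact measureReal_le_one
  calc ∫⁻ ω, ∑ φ ∈ Φ, ENNReal.ofReal (μ.real {ω | conf ξ K ω = φ}) * ENNReal.ofReal
        (‖S b h M (val f K φ + (x + val f K' (conf ξ K' ω)))‖ ^ 2) ∂μ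
      ≤ ∫⁻ _, ENNReal.ofReal ((q * M + η) * M) ∂μ := by
        refine lintegral_mono fun ω => ?_
        have h4 := sieve_sum Φ (fun φ => μ.real {ω | conf ξ K ω = φ})
          (fun φ _ => measureReal_nonneg) hP1 q hq hq0 b h M (val f K) η hη0 hη
          (x + val f K' (conf ξ K' ω))
        have h5 : ∑ φ ∈ Φ, ENNReal.ofReal (μ.real {ω | conf ξ K ω = φ}) * ENNReal.ofReal
            (‖S b h M (val f K φ + (x + val f K' (conf ξ K' ω)))‖ ^ 2) =
            ENNReal.ofReal (∑ φ ∈ Φ, μ.real {ω | conf ξ K ω = φ} *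
              ‖S b h M (val f K φ + (x + val f K' (conf ξ K' ω)))‖ ^ 2) := by
          rw [ENNReal.ofReal_sum_of_nonneg fun φ _ => mul_nonneg measureReal_nonneg (sq_nonneg _)]
          exact sum_congr rfl fun φ _ => (ENNReal.ofReal_mul measureReal_nonneg).symm
        simp only
        rw [h5]
        exact ENNReal.ofReal_le_ofReal h4
    _ = ENNReal.ofReal ((q * M + η) * M) := by simp

end H41.Rand
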