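import Pool.Agent.H41.Rand.LS

/-! # A Tauberian lemma -/

set_option autoImplicit false

open Finset Filter Topology

namespace H41.Rand

open H41.SW

/-- If `∑ ‖S_M / M‖² / M` converges then `S_M / M → 0`, for sums of bounded terms. -/
theorem taub (s : ℕ → ℂ) (z : ℕ → ℂ) (hz : ∀ n, ‖z n‖ ≤ 1)
    (hs : ∀ M, s M = ∑ n ∈ range M, z n)
    (hsum : Summable fun M : ℕ => ‖s M‖ ^ 2 / (M : ℝ) ^ 3) :
    Tendsto (fun M : ℕ => s M / M) atTop (𝓝 0) := by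
  rw [tendsto_zero_iff_norm_tendsto_zero, Metric.tendsto_atTop]
  by_contra hcon
  push Not at hcon
  obtain ⟨ε0, hε0, hcon⟩ := hcon
  obtain ⟨ε, hε⟩ : ∃ ε : ℝ, ε = min ε0 1 := ⟨_, rfl⟩
  have hεpos : 0 < ε := by rw [hε]; exact lt_min hε0 one_pos
  have hε1 : ε ≤ 1 := by rw [hε]; exact min_le_right _ _
  have hεε : ε ≤ ε0 := by rw [hε]; exact min_le_left _ _
  obtain ⟨δ, hδ⟩ : ∃ δ : ℝ, δ = ε ^ 3 / 64 := ⟨_, rfl⟩
  have hδ0 : 0 < δ := by rw [hδ]; positivity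
  -- tails
  have hc := hsum.hasSum.tendsto_sum_nat.cauchySeq
  obtain ⟨N0, hN0⟩ := Metric.cauchySeq_iff.1 hc δ hδ0
  obtain ⟨M, hM, hMb⟩ := hcon (max N0 (⌈8 / ε⌉₊ + 1))
  have hM0 : N0 ≤ M := (le_max_left _ _).trans hM
  have hM1 : ⌈8 / ε⌉₊ + 1 ≤ M := (le_max_right _ _).trans hM
  have hMr : 8 / ε ≤ M := by
    have h1 := Nat.le_ceil (8 / ε)
    have h2 : ((⌈8 / ε⌉₊ : ℕ) : ℝ) ≤ M := by exact_mod_cast (by omega : ⌈8 / ε⌉₊ ≤ M)
    linarith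
  have hMpos : (0 : ℝ) < M := lt_of_lt_of_le (by positivity) hMr
  have hMb' : ε * M ≤ ‖s M‖ := by
    rw [dist_zero_right, norm_norm, norm_div, Complex.norm_natCast, le_div_iff₀ hMpos] at hMb
    exact (mul_le_mul_of_nonneg_right hεε hMpos.le).trans hMb
  have h8 : 8 ≤ ε * M := by
    rw [div_le_iff₀ hεpos] at hMr
    linarith
  obtain ⟨J, hJ⟩ : ∃ J : ℕ, J = ⌊ε * M / 4⌋₊ := ⟨_, rfl⟩
  have hJ1 : (J : ℝ) ≤ ε * M / 4 := by rw [hJ]; exact Nat.floor_le (by positivity)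
  have hJ2 : ε * M / 8 ≤ J := by
    have := Nat.lt_floor_add_one (ε * M / 4)
    rw [← hJ] at this
    linarith
  have hd := hN0 M hM0 (M + J) (by omega)
  rw [dist_comm, Real.dist_eq, sum_range_add] at hd
  have hd2 : ∑ j ∈ range J, ‖s (M + j)‖ ^ 2 / ((M + j : ℕ) : ℝ) ^ 3 < δ := by
    have := (abs_lt.1 hd).2
    linarith
  have hterm : ∀ j ∈ range J, ε ^ 2 / (8 * M) ≤ ‖s (M + j)‖ ^ 2 / ((M + j : ℕ) : ℝ) ^ 3 := by
    intro j hj
    have hjJ : (j : ℝ) ≤ J := by exact_mod_cast (mem_range.1 hj).le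
    have h1 : ‖s (M + j) - s M‖ ≤ j := by
      rw [hs, hs, sum_range_add, add_sub_cancel_left]
      refine (norm_sum_le _ _).trans ?_
      refine (sum_le_sum fun n _ => hz _).trans ?_
      simp
    have h2 : ‖s M‖ ≤ ‖s (M + j)‖ + j := by
      calc ‖s M‖ = ‖s (M + j) - (s (M + j) - s M)‖ := by congr 1; ring
        _ ≤ ‖s (M + j)‖ + ‖s (M + j) - s M‖ := norm_sub_le _ _
        _ ≤ _ := by linarith
    have h3 : 3 / 4 * (ε * M) ≤ ‖s (M + j)‖ := by linarith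
    have h4 : ((M + j : ℕ) : ℝ) ≤ 5 / 4 * M := by
      push_cast
      nlinarith
    have h5 : (0 : ℝ) < ((M + j : ℕ) : ℝ) := by push_cast; positivity
    rw [div_le_div_iff₀ (by positivity) (by positivity)]
    have h6 : ((M + j : ℕ) : ℝ) ^ 3 ≤ (5 / 4 * M) ^ 3 := by gcongr
    have h7 : (3 / 4 * (ε * M)) ^ 2 ≤ ‖s (M + j)‖ ^ 2 := by gcongr
    calc ε ^ 2 * ((M + j : ℕ) : ℝ) ^ 3 ≤ ε ^ 2 * (5 / 4 * M) ^ 3 := by gcongr
      _ = (125 / 64) * (ε ^ 2 * M ^ 3) := by ring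
      _ ≤ (72 / 16) * (ε ^ 2 * M ^ 3) :=
          mul_le_mul_of_nonneg_right (by norm_num) (by positivity)
      _ = (3 / 4 * (ε * M)) ^ 2 * (8 * M) := by ring
      _ ≤ ‖s (M + j)‖ ^ 2 * (8 * M) := by gcongr
  have hlow := sum_le_sum hterm
  rw [sum_const, card_range, nsmul_eq_mul] at hlow
  have h9 : δ ≤ J * (ε ^ 2 / (8 * M)) := by
    calc δ = (ε * M / 8) * (ε ^ 2 / (8 * M)) := by rw [hδ]; field_simp; ring
      _ ≤ J * (ε ^ 2 / (8 * M)) := by gcongr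
  linarith

end H41.Rand
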